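import Mathlib

set_option autoImplicit false

open Set Topology Cardinal

namespace Pool.Agent.Helper27.Corson

/-! ### Closing-off (hulls under finitary set-valued operations) -/

/-- `a` is closed under the finitary set-valued operation `G`. -/
def ClosedUnder {ι : Type} (G : Finset ι → Set ι) (a : Set ι) : Prop :=
  ∀ s : Finset ι, (s : Set ι) ⊆ a → G s ⊆ a

/-- The hull of `a` under `G`. -/
def hull {ι : Type} (G : Finset ι → Set ι) (a : Set ι) : Set ι :=
  ⋂₀ {b | a ⊆ b ∧ ClosedUnder G b}

variable {ι : Type} {G : Finset ι → Set ι}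

theorem subset_hull (a : Set ι) : a ⊆ hull G a := by
  intro x hx b hb
  exact hb.1 hx

theorem closed_hull (a : Set ι) : ClosedUnder G (hull G a) := by
  intro s hs x hx b hb
  exact hb.2 s (fun y hy => hs hy b hb) hx

theorem hull_subset {a b : Set ι} (hab : a ⊆ b) (hb : ClosedUnder G b) : hull G a ⊆ b := by
  intro x hx
  exact hx b ⟨hab, hb⟩

theorem hull_mono {a b : Set ι} (hab : a ⊆ b) : hull G a ⊆ hull G b :=
  hull_subset (hab.trans (subset_hull b)) (closed_hull b)

theorem closed_iUnion_directed {J : Type} [Nonempty J] (a : J → Set ι)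
    (hdir : Directed (· ⊆ ·) a) (ha : ∀ j, ClosedUnder G (a j)) :
    ClosedUnder G (⋃ j, a j) := by
  intro s hs
  obtain ⟨j, hj⟩ := hdir.exists_mem_subset_of_finset_subset_biUnion hs
  exact (ha j s hj).trans (subset_iUnion a j)

theorem mk_finset_subset_le {κ : Cardinal.{0}} (hκ : ℵ₀ ≤ κ) {a : Set ι} (ha : #a ≤ κ) :
    #{s : Finset ι | (s : Set ι) ⊆ a} ≤ κ := by
  have h1 : #{s : Finset ι | (s : Set ι) ⊆ a} ≤ #(Finset a) := by
    classical
    refine Cardinal.mk_le_of_injective (f := fun s => (s.1.subtype (· ∈ a))) ?_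
    intro s t hst
    apply Subtype.ext
    have hs := s.2
    have ht := t.2
    ext x
    constructor
    · intro hx
      have : (⟨x, hs hx⟩ : a) ∈ s.1.subtype (· ∈ a) := by simpa using hx
      rw [show s.1.subtype (· ∈ a) = t.1.subtype (· ∈ a) from hst] at this
      simpa using this
    · intro hx
      have : (⟨x, ht hx⟩ : a) ∈ t.1.subtype (· ∈ a) := by simpa using hx
      rw [← show s.1.subtype (· ∈ a) = t.1.subtype (· ∈ a) from hst] at this
      simpa using this
  refine h1.trans ?_
  rcases finite_or_infinite a with hfin | hinf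
  · have : #(Finset a) < ℵ₀ := by
      have := Fintype.ofFinite a
      exact Cardinal.lt_aleph0_of_finite _
    exact this.le.trans hκ
  · rw [Cardinal.mk_finset_of_infinite]
    exact ha

theorem mk_hull_le {κ : Cardinal.{0}} (hκ : ℵ₀ ≤ κ) (hG : ∀ s, #(G s) ≤ κ) {a : Set ι}
    (ha : #a ≤ κ) : #(hull G a) ≤ κ := by
  -- the ω-iteration
  let seq : ℕ → Set ι := fun n => Nat.rec a (fun _ b => b ∪ ⋃ s ∈ {s : Finset ι | (s : Set ι) ⊆ b}, G s) n
  have hsucc : ∀ n, seq (n+1) = seq n ∪ ⋃ s ∈ {s : Finset ι | (s : Set ι) ⊆ seq n}, G s := fun n => rfl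
  have hcard : ∀ n, #(↥(seq n)) ≤ κ := by
    intro n
    induction n with
    | zero => exact ha
    | succ n ih =>
      rw [hsucc]
      refine (Cardinal.mk_union_le _ _).trans ?_
      have h2 : #(⋃ s ∈ {s : Finset ι | (s : Set ι) ⊆ seq n}, G s : Set ι) ≤ κ := by
        refine (Cardinal.mk_biUnion_le _ _).trans ?_
        refine (mul_le_mul' (mk_finset_subset_le hκ ih) (ciSup_le' (fun s => hG _))).trans ?_
        rw [Cardinal.mul_eq_self hκ]
      refine (add_le_add ih h2).trans ?_
      rw [Cardinal.add_eq_self hκ]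
  have hmono : Monotone seq := monotone_nat_of_le_succ (fun n => by rw [hsucc]; exact subset_union_left)
  have hclosed : ClosedUnder G (⋃ n, seq n) := by
    intro s hs
    have hdir : Directed (· ⊆ ·) seq := hmono.directed_le
    obtain ⟨n, hn⟩ := hdir.exists_mem_subset_of_finset_subset_biUnion hs
    refine Subset.trans ?_ (subset_iUnion seq (n+1))
    rw [hsucc]
    refine Subset.trans ?_ subset_union_right
    exact subset_biUnion_of_mem (u := fun s => G s) hn
  have hsub : hull G a ⊆ ⋃ n, seq n := hull_subset (subset_iUnion seq 0) hclosed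
  refine (Cardinal.mk_le_mk_of_subset hsub).trans ?_
  refine (Cardinal.mk_iUnion_le _).trans ?_
  refine (mul_le_mul' (Cardinal.mk_nat.le.trans hκ) (ciSup_le' hcard)).trans ?_
  rw [Cardinal.mul_eq_self hκ]

theorem countable_hull (hG : ∀ s, (G s).Countable) {a : Set ι} (ha : a.Countable) :
    (hull G a).Countable := by
  rw [← Cardinal.le_aleph0_iff_set_countable] at *
  exact mk_hull_le le_rfl (fun s => by rw [Cardinal.le_aleph0_iff_set_countable]; exact hG s) ha

end Pool.Agent.Helper27.Corson
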