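import Mathlib
import Pool.Agent.Helper27.Corson1

set_option autoImplicit false

open Set Topology Cardinal

namespace Pool.Agent.Helper27.Corson

/-- A continuous map into `ℝ^T` all of whose values have countable support. -/
def SigmaMap {X : Type} [TopologicalSpace X] {T : Type} (f : X → T → ℝ) : Prop :=
  Continuous f ∧ ∀ x, (Function.support (f x)).Countable

/-- `X` has an injective Sigma-map (for compact `X` : `X` is Corson compact). -/
def PC (X : Type) [TopologicalSpace X] : Prop :=
  ∃ (T : Type) (f : X → T → ℝ), SigmaMap f ∧ Function.Injective f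

/-- `X` is splittable by Sigma-maps. -/
def Splittable (X : Type) [TopologicalSpace X] : Prop :=
  ∀ A : Set X, ∃ (T : Type) (f : X → T → ℝ), SigmaMap f ∧ ∀ x y, f x = f y → (x ∈ A ↔ y ∈ A)

theorem SigmaMap.comp {X Y : Type} [TopologicalSpace X] [TopologicalSpace Y] {T : Type}
    {f : X → T → ℝ} (hf : SigmaMap f) {g : Y → X} (hg : Continuous g) :
    SigmaMap (fun y => f (g y)) :=
  ⟨hf.1.comp hg, fun y => hf.2 (g y)⟩

/-- Splittability passes to subspaces. -/
theorem Splittable.subtype {X : Type} [TopologicalSpace X] (hX : Splittable X) (K : Set X) :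
    Splittable K := by
  intro A
  obtain ⟨T, f, hf, hfA⟩ := hX (Subtype.val '' A)
  refine ⟨T, fun y => f y.1, hf.comp continuous_subtype_val, ?_⟩
  intro x y hxy
  have := hfA x.1 y.1 hxy
  constructor
  · intro hx
    obtain ⟨z, hz, hzy⟩ := this.1 ⟨x, hx, rfl⟩
    rwa [← Subtype.ext hzy]
  · intro hy
    obtain ⟨z, hz, hzx⟩ := this.2 ⟨y, hy, rfl⟩
    rwa [← Subtype.ext hzx]

/-- On a compact space with a separating family of continuous functions, every continuous function
depends on countably many members of the family. -/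
theorem exists_countable_dep {K : Type} [TopologicalSpace K] [CompactSpace K] {ι : Type}
    (Ψ : ι → K → ℝ) (hΨ : ∀ i, Continuous (Ψ i))
    (hsep : ∀ x y, (∀ i, Ψ i x = Ψ i y) → x = y) (φ : K → ℝ) (hφ : Continuous φ) :
    ∃ c : Set ι, c.Countable ∧ ∀ x y, (∀ i ∈ c, Ψ i x = Ψ i y) → φ x = φ y := by
  have key : ∀ n : ℕ, ∃ t : Finset ι, ∀ x y, (∀ i ∈ t, Ψ i x = Ψ i y) →
      |φ x - φ y| < 1 / ((n : ℝ) + 1) := by
    intro n
    have hKc : IsCompact {p : K × K | 1 / ((n : ℝ) + 1) ≤ |φ p.1 - φ p.2|} := by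
      apply IsClosed.isCompact
      apply isClosed_le continuous_const
      fun_prop
    obtain ⟨t, ht⟩ := hKc.elim_finite_subcover (fun i => {p : K × K | Ψ i p.1 ≠ Ψ i p.2})
      (fun i => by
        apply isOpen_ne_fun
        · exact (hΨ i).comp continuous_fst
        · exact (hΨ i).comp continuous_snd)
      (by
        rintro ⟨x, y⟩ hxy
        by_contra hcon
        simp only [mem_iUnion, mem_ofPred_eq, not_exists, not_not] at hcon
        have := hsep x y hcon
        subst this
        simp only [mem_ofPred_eq, sub_self, abs_zero] at hxy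
        have : (0 : ℝ) < 1 / ((n : ℝ) + 1) := by positivity
        linarith)
    refine ⟨t, fun x y hxy => ?_⟩
    by_contra hcon
    have hmem : (x, y) ∈ {p : K × K | 1 / ((n : ℝ) + 1) ≤ |φ p.1 - φ p.2|} := not_lt.1 hcon
    have := ht hmem
    simp only [mem_iUnion, mem_ofPred_eq] at this
    obtain ⟨i, hi, hne⟩ := this
    exact hne (hxy i hi)
  choose t ht using key
  refine ⟨⋃ n, (t n : Set ι), countable_iUnion (fun n => (t n).countable_toSet), ?_⟩
  intro x y hxy
  by_contra hne
  have hpos : 0 < |φ x - φ y| := abs_pos.2 (sub_ne_zero.2 hne)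
  obtain ⟨n, hn⟩ := exists_nat_one_div_lt hpos
  have := ht n x y (fun i hi => hxy i (mem_iUnion.2 ⟨n, hi⟩))
  linarith

/-- Enumerate the coordinates of a Sigma-map on a space with dense range `D`. -/
theorem SigmaMap.exists_enum {X : Type} [TopologicalSpace X] {ι : Type} {D : ι → X}
    (hD : DenseRange D) {T : Type} {f : X → T → ℝ} (hf : SigmaMap f) :
    ∃ g : ι × ℕ → X → ℝ, (∀ p, Continuous (g p)) ∧
      ∀ x y, (∀ p, g p x = g p y) → f x = f y := by
  rcases isEmpty_or_nonempty T with hT | hT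
  · exact ⟨fun _ _ => 0, fun _ => continuous_const, fun x y _ => Subsingleton.elim _ _⟩
  have : ∀ i, ∃ e : ℕ → T, Function.support (f (D i)) ⊆ range e := fun i =>
    (Set.countable_iff_exists_subset_range).1 (hf.2 (D i))
  choose e he using this
  refine ⟨fun p x => f x (e p.1 p.2), fun p => (continuous_apply _).comp hf.1, ?_⟩
  intro x y hxy
  funext t
  by_cases ht : ∃ i, f (D i) t ≠ 0
  · obtain ⟨i, hi⟩ := ht
    obtain ⟨n, hn⟩ := he i hi
    have := hxy (i, n)
    simp only [hn] at this
    exact this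
  · push Not at ht
    have hzero : (fun z => f z t) = fun _ => 0 :=
      hD.equalizer ((continuous_apply t).comp hf.1) continuous_const (by funext i; exact ht i)
    rw [show f x t = 0 from congrFun hzero x, show f y t = 0 from congrFun hzero y]

theorem exists_equiv_of_infinite {ι : Type} [Infinite ι] :
    Nonempty (((ι × ℕ × ℕ) × ι) ≃ ι) ∧ Nonempty (ι ≃ ι × (ι × ℕ)) := by
  have h0 : ℵ₀ ≤ #ι := Cardinal.infinite_iff.1 inferInstance
  constructor
  · rw [← Cardinal.eq]
    simp only [Cardinal.mk_prod, Cardinal.lift_id, Cardinal.mk_nat]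
    simp [Cardinal.mul_aleph0_eq h0, Cardinal.mul_eq_self h0]
  · rw [← Cardinal.eq]
    simp only [Cardinal.mk_prod, Cardinal.lift_id, Cardinal.mk_nat]
    simp [Cardinal.mul_aleph0_eq h0, Cardinal.mul_eq_self h0]

/-- A splittable space with dense range `D : ι → X` injects into `Set ι`. -/
theorem Splittable.exists_injection {X : Type} [TopologicalSpace X]
    (hX : Splittable X) {ι : Type} [Infinite ι] {D : ι → X} (hD : DenseRange D) :
    ∃ j : X → Set ι, Function.Injective j := by
  have h1 : ∀ x : X, ∃ g : ι × ℕ → X → ℝ, (∀ p, Continuous (g p)) ∧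
      ∀ y, (∀ p, g p y = g p x) → y = x := by
    intro x
    obtain ⟨T, f, hf, hfx⟩ := hX {x}
    obtain ⟨g, hg, hgf⟩ := hf.exists_enum hD
    refine ⟨g, hg, fun y hy => ?_⟩
    exact (hfx y x (hgf y x hy)).2 rfl
  choose g hgc hg using h1
  let code : X → (ι × ℕ × ℕ → Set ι) := fun x q =>
    {i | |g x (q.1, q.2.1) (D i) - g x (q.1, q.2.1) x| < 1 / ((q.2.2 : ℝ) + 1)}
  have hcode : Function.Injective code := by
    intro x x' hxx'
    symm
    apply hg x x'
    rintro ⟨i, n⟩
    -- for all m, x' ∈ closure (D '' code x' (i,n,m)) = closure (D '' code x (i,n,m))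
    have hm : ∀ m : ℕ, |g x (i, n) x' - g x (i, n) x| ≤ 1 / ((m : ℝ) + 1) := by
      intro m
      have hx' : x' ∈ closure (D '' code x' (i, n, m)) := by
        rw [mem_closure_iff]
        intro o ho hxo
        have hopen : IsOpen (o ∩ {z | |g x' (i, n) z - g x' (i, n) x'| < 1 / ((m : ℝ) + 1)}) := by
          apply ho.inter
          apply isOpen_lt _ continuous_const
          have := hgc x' (i, n)
          fun_prop
        obtain ⟨k, hk⟩ := hD.exists_mem_open hopen ⟨x', hxo, by
          simp only [mem_ofPred_eq, sub_self, abs_zero]; positivity⟩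
        exact ⟨D k, hk.1, ⟨k, hk.2, rfl⟩⟩
      rw [← hxx'] at hx'
      have hcl : IsClosed {z | |g x (i, n) z - g x (i, n) x| ≤ 1 / ((m : ℝ) + 1)} := by
        apply isClosed_le _ continuous_const
        have := hgc x (i, n)
        fun_prop
      have hsub : D '' code x (i, n, m) ⊆ {z | |g x (i, n) z - g x (i, n) x| ≤ 1 / ((m : ℝ) + 1)} := by
        rintro _ ⟨k, hk, rfl⟩
        have hk' : |g x (i, n) (D k) - g x (i, n) x| < 1 / ((m : ℝ) + 1) := hk
        exact hk'.le
      exact closure_minimal hsub hcl hx'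
    by_contra hne
    have hpos : 0 < |g x (i, n) x' - g x (i, n) x| := abs_pos.2 (sub_ne_zero.2 hne)
    obtain ⟨m, hm'⟩ := exists_nat_one_div_lt hpos
    linarith [hm m]
  obtain ⟨⟨e⟩, -⟩ := exists_equiv_of_infinite (ι := ι)
  refine ⟨fun x => {k | (e.symm k).2 ∈ code x (e.symm k).1}, ?_⟩
  intro x x' hxx'
  apply hcode
  funext q
  ext i
  have := congrArg (fun s => e (q, i) ∈ s) hxx'
  simpa using this

/-- A splittable space with dense range `D : ι → X` (`ι` infinite) has a separating family of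
continuous functions indexed by `ι`. -/
theorem Splittable.exists_sep_family {X : Type} [TopologicalSpace X]
    (hX : Splittable X) {ι : Type} [Infinite ι] {D : ι → X} (hD : DenseRange D) :
    ∃ Ψ : ι → X → ℝ, (∀ i, Continuous (Ψ i)) ∧ ∀ x y, (∀ i, Ψ i x = Ψ i y) → x = y := by
  obtain ⟨j, hj⟩ := hX.exists_injection hD
  have h1 : ∀ i : ι, ∃ g : ι × ℕ → X → ℝ, (∀ p, Continuous (g p)) ∧
      ∀ x y, (∀ p, g p x = g p y) → (i ∈ j x ↔ i ∈ j y) := by
    intro i
    obtain ⟨T, f, hf, hfx⟩ := hX {x | i ∈ j x}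
    obtain ⟨g, hg, hgf⟩ := hf.exists_enum hD
    exact ⟨g, hg, fun x y hxy => hfx x y (hgf x y hxy)⟩
  choose g hgc hg using h1
  obtain ⟨-, ⟨e⟩⟩ := exists_equiv_of_infinite (ι := ι)
  refine ⟨fun k => g (e k).1 (e k).2, fun k => hgc _ _, ?_⟩
  intro x y hxy
  apply hj
  ext i
  apply hg i x y
  intro p
  have := hxy (e.symm (i, p))
  simpa using this

/-- Finite-dimensional projections of dense images : countable dense pieces. -/
theorem exists_countable_piece {Y : Type} {T : Type} (f : Y → T → ℝ) (s : Finset T) :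
    ∃ S : Set Y, S.Countable ∧ ∀ y : Y, ∀ ε > 0, ∃ z ∈ S, ∀ t ∈ s, |f z t - f y t| < ε := by
  classical
  let p : Y → (s → ℝ) := fun y t => f y t
  have hsep : TopologicalSpace.IsSeparable (range p) := TopologicalSpace.IsSeparable.of_separableSpace _
  obtain ⟨c, hc, hcc, hcd⟩ := hsep.exists_countable_dense_subset
  have h1 : ∀ u : c, ∃ y, p y = u := fun u => hc u.2
  choose σ hσ using h1
  have : Countable c := hcc
  refine ⟨range σ, countable_range σ, ?_⟩
  intro y ε hε
  have hy : p y ∈ closure c := hcd ⟨y, rfl⟩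
  obtain ⟨u, hu, hdist⟩ := Metric.mem_closure_iff.1 hy ε hε
  refine ⟨σ ⟨u, hu⟩, ⟨_, rfl⟩, ?_⟩
  intro t ht
  have h2 : p (σ ⟨u, hu⟩) = u := hσ ⟨u, hu⟩
  have h3 : dist (p y ⟨t, ht⟩) (u ⟨t, ht⟩) < ε := lt_of_le_of_lt (dist_le_pi_dist _ _ _) hdist
  rw [← h2] at h3
  rw [dist_comm, Real.dist_eq] at h3
  exact h3

end Pool.Agent.Helper27.Corson
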