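import Mathlib
import Pool.Agent.Helper27.Corson2

set_option autoImplicit false

open Set Topology Cardinal

namespace Pool.Agent.Helper27.Corson

/-- Countable tightness of Sigma-products, relative version. -/
theorem SigmaMap.tight {X : Type} [TopologicalSpace X] {T : Type} {f : X → T → ℝ}
    (hf : SigmaMap f) {A : Set X} {x : X} (hx : x ∈ closure A) :
    ∃ S ⊆ A, S.Countable ∧ f x ∈ closure (f '' S) := by
  classical
  -- for each finite s choose a countable piece of A
  have h1 : ∀ s : Finset T, ∃ S : Set A, S.Countable ∧ ∀ y : A, ∀ ε > 0, ∃ z ∈ S, ∀ t ∈ s,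
      |f (z : X) t - f (y : X) t| < ε := fun s => exists_countable_piece (fun y : A => f y) s
  choose P hPc hP using h1
  let G : Finset T → Set T := fun s => ⋃ z ∈ P s, Function.support (f (z : X))
  have hG : ∀ s, (G s).Countable := fun s => (hPc s).biUnion (fun z _ => hf.2 z)
  let b : Set T := hull G (Function.support (f x))
  have hb : b.Countable := countable_hull hG (hf.2 x)
  let FS : Set (Finset T) := {s | (s : Set T) ⊆ b}
  have hFS : FS.Countable := by
    rw [← Cardinal.le_aleph0_iff_set_countable]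
    exact mk_finset_subset_le le_rfl (by rw [Cardinal.le_aleph0_iff_set_countable]; exact hb)
  refine ⟨⋃ s ∈ FS, Subtype.val '' (P s), ?_, ?_, ?_⟩
  · intro z hz
    simp only [mem_iUnion] at hz
    obtain ⟨s, hs, w, hw, rfl⟩ := hz
    exact w.2
  · exact hFS.biUnion (fun s _ => (hPc s).image _)
  · rw [mem_closure_iff_nhds]
    intro U hU
    rw [nhds_pi, Filter.mem_pi'] at hU
    obtain ⟨s', V, hV, hVU⟩ := hU
    -- uniform epsilon
    have h2 : ∀ t, ∃ ε > 0, Metric.ball (f x t) ε ⊆ V t := fun t => Metric.mem_nhds_iff.1 (hV t)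
    choose ε hε hεV using h2
    obtain ⟨δ, hδ, hδε⟩ : ∃ δ > 0, ∀ t ∈ s', δ ≤ ε t := by
      rcases s'.eq_empty_or_nonempty with h | h
      · exact ⟨1, one_pos, by simp [h]⟩
      · exact ⟨s'.inf' h ε, by simp [hε], fun t ht => Finset.inf'_le _ ht⟩
    let s : Finset T := s'.filter (· ∈ b)
    have hsb : (s : Set T) ⊆ b := by
      intro t ht
      simpa [s] using (Finset.mem_filter.1 ht).2
    -- a point of A close to x on s
    have hopen : IsOpen {y : X | ∀ t ∈ s, |f y t - f x t| < δ / 2} := by
      have : {y : X | ∀ t ∈ s, |f y t - f x t| < δ / 2} =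
          ⋂ t ∈ s, {y : X | |f y t - f x t| < δ / 2} := by ext y; simp
      rw [this]
      apply isOpen_biInter_finset
      intro t _
      apply isOpen_lt _ continuous_const
      have := (continuous_apply t).comp hf.1
      have h' : Continuous fun y => f y t := this
      fun_prop
    obtain ⟨y, hy, hyA⟩ := mem_closure_iff.1 hx _ hopen (by
      intro t _
      simp only [sub_self, abs_zero]
      linarith)
    obtain ⟨z, hz, hzy⟩ := hP s ⟨y, hyA⟩ (δ / 2) (by linarith)
    refine ⟨f z, hVU ?_, ⟨z, ?_, rfl⟩⟩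
    · intro t ht
      apply hεV t
      rw [Metric.mem_ball, Real.dist_eq]
      refine lt_of_lt_of_le ?_ (hδε t ht)
      by_cases htb : t ∈ b
      · have hts : t ∈ s := Finset.mem_filter.2 ⟨ht, htb⟩
        have e1 := hzy t hts
        have e2 := hy t hts
        calc |f z t - f x t| ≤ |f z t - f y t| + |f y t - f x t| := abs_sub_le _ _ _
          _ < δ / 2 + δ / 2 := add_lt_add e1 e2
          _ = δ := by ring
      · have e1 : f x t = 0 := by
          by_contra hne
          exact htb (subset_hull _ hne)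
        have e2 : f z t = 0 := by
          by_contra hne
          apply htb
          have : G s ⊆ b := closed_hull _ s hsb
          apply this
          simp only [G, mem_iUnion]
          exact ⟨z, hz, hne⟩
        rw [e1, e2]
        simpa using hδ
    · simp only [mem_iUnion]
      exact ⟨s, hsb, z, hz, rfl⟩

/-- Countable tightness of compact splittable spaces. -/
theorem Splittable.tight {X : Type} [TopologicalSpace X] [CompactSpace X] [T2Space X]
    (hX : Splittable X) {A : Set X} {x : X} (hx : x ∈ closure A) :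
    ∃ S ⊆ A, S.Countable ∧ x ∈ closure S := by
  let A' : Set X := {z | ∃ S ⊆ A, S.Countable ∧ z ∈ closure S}
  have hAA' : A ⊆ A' := fun z hz => ⟨{z}, singleton_subset_iff.2 hz, countable_singleton z,
    subset_closure rfl⟩
  have hω : ∀ S ⊆ A', S.Countable → closure S ⊆ A' := by
    intro S hS hSc z hz
    have h1 : ∀ s : S, ∃ R ⊆ A, R.Countable ∧ (s : X) ∈ closure R := fun s => hS s.2
    choose R hRA hRc hR using h1
    have : Countable S := hSc
    refine ⟨⋃ s, R s, iUnion_subset hRA, countable_iUnion hRc, ?_⟩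
    have hSR : S ⊆ closure (⋃ s, R s) := fun s hs =>
      closure_mono (subset_iUnion R ⟨s, hs⟩) (hR ⟨s, hs⟩)
    exact closure_minimal hSR isClosed_closure hz
  obtain ⟨T, f, hf, hfA⟩ := hX A'
  have hx' : x ∈ closure A' := closure_mono hAA' hx
  obtain ⟨S, hSA, hSc, hfx⟩ := hf.tight hx'
  -- lift to a point of closure S
  have hcomp : IsCompact (f '' closure S) := (isClosed_closure.isCompact).image hf.1
  have hsub : closure (f '' S) ⊆ f '' closure S :=
    closure_minimal (image_mono subset_closure) hcomp.isClosed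
  obtain ⟨z, hz, hzx⟩ := hsub hfx
  have hzA' : z ∈ A' := hω S hSA hSc hz
  exact (hfA z x hzx).1 hzA'

section Fam

variable {X : Type} [TopologicalSpace X] {ι : Type}

/-- The closed subspace spanned by `a`. -/
def Xs (D : ι → X) (a : Set ι) : Set X := closure (D '' a)

/-- Indistinguishability by the functions with index in `a`. -/
def EqOnIdx (Ψ : ι → X → ℝ) (a : Set ι) (x y : X) : Prop := ∀ i ∈ a, Ψ i x = Ψ i y

theorem Xs_mono (D : ι → X) {a b : Set ι} (h : a ⊆ b) : Xs D a ⊆ Xs D b :=
  closure_mono (image_mono h)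

/-- `a` is good. -/
structure Good (D : ι → X) (Ψ : ι → X → ℝ) (a : Set ι) : Prop where
  full : ∀ x, ∃ y ∈ Xs D a, EqOnIdx Ψ a x y
  inj : ∀ x ∈ Xs D a, ∀ y ∈ Xs D a, EqOnIdx Ψ a x y → x = y

open Classical in
/-- The retraction associated with a good set. -/
noncomputable def retr (D : ι → X) (Ψ : ι → X → ℝ) (a : Set ι) (x : X) : X :=
  if h : ∃ y ∈ Xs D a, EqOnIdx Ψ a x y then h.choose else x

variable {D : ι → X} {Ψ : ι → X → ℝ} {a b : Set ι}

theorem Good.retr_mem (h : Good D Ψ a) (x : X) : retr D Ψ a x ∈ Xs D a := by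
  have := h.full x
  rw [retr, dif_pos this]
  exact this.choose_spec.1

theorem Good.retr_eq (h : Good D Ψ a) (x : X) : EqOnIdx Ψ a x (retr D Ψ a x) := by
  have := h.full x
  rw [retr, dif_pos this]
  exact this.choose_spec.2

theorem Good.retr_unique (h : Good D Ψ a) {x y : X} (hy : y ∈ Xs D a) (hxy : EqOnIdx Ψ a x y) :
    retr D Ψ a x = y :=
  h.inj _ (h.retr_mem x) _ hy (fun i hi => by rw [← h.retr_eq x i hi, hxy i hi])

theorem Good.retr_congr (h : Good D Ψ a) {x y : X} (hxy : EqOnIdx Ψ a x y) :
    retr D Ψ a x = retr D Ψ a y :=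
  h.retr_unique (h.retr_mem y) (fun i hi => by rw [hxy i hi, h.retr_eq y i hi])

theorem Good.retr_eq_iff (h : Good D Ψ a) {x y : X} :
    retr D Ψ a x = retr D Ψ a y ↔ EqOnIdx Ψ a x y := by
  constructor
  · intro hxy i hi
    rw [h.retr_eq x i hi, hxy, ← h.retr_eq y i hi]
  · exact h.retr_congr

theorem Good.retr_self (h : Good D Ψ a) {x : X} (hx : x ∈ Xs D a) : retr D Ψ a x = x :=
  h.retr_unique hx (fun _ _ => rfl)

theorem Good.retr_retr (h : Good D Ψ a) (h' : Good D Ψ b) (hab : a ⊆ b) (x : X) :
    retr D Ψ a (retr D Ψ b x) = retr D Ψ a x :=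
  h.retr_congr (fun i hi => (h'.retr_eq x i (hab hi)).symm)

theorem Good.continuous_retr [CompactSpace X] [T2Space X] (h : Good D Ψ a)
    (hΨ : ∀ i, Continuous (Ψ i)) : Continuous (retr D Ψ a) := by
  rw [continuous_iff_isClosed]
  intro C hC
  have : retr D Ψ a ⁻¹' C = Prod.fst '' {p : X × X | (p.2 ∈ Xs D a ∧ p.2 ∈ C) ∧ EqOnIdx Ψ a p.1 p.2} := by
    ext x
    constructor
    · intro hx
      exact ⟨(x, retr D Ψ a x), ⟨⟨h.retr_mem x, hx⟩, h.retr_eq x⟩, rfl⟩
    · rintro ⟨⟨x', y⟩, ⟨⟨hy, hyC⟩, hxy⟩, rfl⟩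
      have : retr D Ψ a x' = y := h.retr_unique hy hxy
      change retr D Ψ a x' ∈ C
      rw [this]; exact hyC
  rw [this]
  apply IsCompact.isClosed
  apply IsCompact.image _ continuous_fst
  apply IsClosed.isCompact
  apply IsClosed.inter
  · exact (isClosed_closure.preimage continuous_snd).inter (hC.preimage continuous_snd)
  · have : {p : X × X | EqOnIdx Ψ a p.1 p.2} = ⋂ i ∈ a, {p : X × X | Ψ i p.1 = Ψ i p.2} := by
      ext p; simp [EqOnIdx]
    change IsClosed {p : X × X | EqOnIdx Ψ a p.1 p.2}
    rw [this]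
    apply isClosed_biInter
    intro i _
    exact isClosed_eq ((hΨ i).comp continuous_fst) ((hΨ i).comp continuous_snd)

end Fam

/-- Abstract gluing lemma. -/
theorem glue_abstract {X : Type} [TopologicalSpace X] {I : Type} [LinearOrder I] [WellFoundedLT I]
    {T : I → Type} (g gm : (i : I) → X → T i → ℝ)
    (hg : ∀ i, Continuous (g i)) (hgm : ∀ i, Continuous (gm i))
    (hgs : ∀ i x, (Function.support (g i x)).Countable)
    (hgms : ∀ i x, (Function.support (gm i x)).Countable)
    (ha : ∀ i x y, (∀ j < i, g j x = g j y) → gm i x = gm i y)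
    (hb : ∀ x, {i | g i x ≠ gm i x}.Countable)
    (hd : ∀ x y, (∀ i, g i x = g i y) → x = y) : PC X := by
  refine ⟨Σ i, T i, fun x p => g p.1 x p.2 - gm p.1 x p.2, ⟨?_, ?_⟩, ?_⟩
  · apply continuous_pi
    rintro ⟨i, t⟩
    exact ((continuous_apply t).comp (hg i)).sub ((continuous_apply t).comp (hgm i))
  · intro x
    have hsub : Function.support (fun p : Σ i, T i => g p.1 x p.2 - gm p.1 x p.2) ⊆
        ⋃ i ∈ {i | g i x ≠ gm i x}, (fun t => (⟨i, t⟩ : Σ i, T i)) ''
          (Function.support (g i x) ∪ Function.support (gm i x)) := by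
      rintro ⟨i, t⟩ hp
      have hp' : g i x t - gm i x t ≠ 0 := hp
      simp only [mem_iUnion]
      refine ⟨i, ?_, t, ?_, rfl⟩
      · intro heq
        rw [heq] at hp'
        exact hp' (sub_self _)
      · by_contra hcon
        simp only [mem_union, Function.mem_support, not_or, not_not] at hcon
        rw [hcon.1, hcon.2] at hp'
        exact hp' (sub_self _)
    refine Countable.mono hsub ?_
    exact (hb x).biUnion (fun i _ => ((hgs i x).union (hgms i x)).image _)
  · intro x y hxy
    apply hd
    intro i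
    induction i using WellFoundedLT.induction with
    | ind i ih =>
      have h1 := ha i x y ih
      funext t
      have h2 := congrFun hxy ⟨i, t⟩
      simp only at h2
      rw [h1] at h2
      linarith

end Pool.Agent.Helper27.Corson
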