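import Mathlib
import Pool.Agent.Helper27.Corson3

set_option autoImplicit false

open Set Topology Cardinal

namespace Pool.Agent.Helper27.Corson

section Glue

variable {X : Type} [TopologicalSpace X] [CompactSpace X] [T2Space X]
  {ι : Type} {D : ι → X} {Ψ : ι → X → ℝ}
  {I : Type} [LinearOrder I] [WellFoundedLT I] {a : I → Set ι}

/-- The set of indices at which the retractions of `x` change. -/
def jumps (D : ι → X) (Ψ : ι → X → ℝ) (a : I → Set ι) (x : X) : Set I :=
  {i | (∃ j, j < i) ∧ retr D Ψ (a i) x ≠ retr D Ψ (⋃ j ∈ Iio i, a j) x}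

omit [CompactSpace X] [T2Space X] [WellFoundedLT I] in
theorem jumps_aux
    (htight : ∀ (A : Set X) (x : X), x ∈ closure A → ∃ S ⊆ A, S.Countable ∧ x ∈ closure S)
    (hmono : Monotone a)
    (hgood : ∀ i, Good D Ψ (a i)) (hgood' : ∀ i, (∃ j, j < i) → Good D Ψ (⋃ j ∈ Iio i, a j))
    (x y : X) (U : Set I)
    (hy : y ∈ Xs D (⋃ i ∈ U, a i))
    (h1 : ∀ i ∈ U, retr D Ψ (a i) x = retr D Ψ (a i) y)
    (h2 : ∀ i ∈ U, (∃ j, j < i) →
      retr D Ψ (⋃ j ∈ Iio i, a j) x = retr D Ψ (⋃ j ∈ Iio i, a j) y)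
    (h3 : ∀ i ∈ U, (jumps D Ψ a x ∩ Iio i).Countable) :
    (jumps D Ψ a x ∩ U).Countable := by
  obtain ⟨S, hS, hSc, hyS⟩ := htight _ y hy
  have h4 : ∀ s : S, ∃ i ∈ U, (s : X) ∈ D '' (a i) := by
    intro s
    obtain ⟨k, hk, hks⟩ := hS s.2
    simp only [mem_iUnion] at hk
    obtain ⟨i, hi, hki⟩ := hk
    exact ⟨i, hi, k, hki, hks⟩
  choose q hqU hq using h4
  have : Countable S := hSc
  by_cases hcase : ∃ i ∈ U, ∀ s, q s < i
  · obtain ⟨i, hiU, hi⟩ := hcase
    by_cases hex : ∃ j, j < i
    · have hyi : y ∈ Xs D (⋃ j ∈ Iio i, a j) := by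
        refine closure_mono ?_ hyS
        intro s hs
        obtain ⟨k, hk, hks⟩ := hq ⟨s, hs⟩
        refine ⟨k, ?_, hks⟩
        simp only [mem_iUnion]
        exact ⟨q ⟨s, hs⟩, hi _, hk⟩
      refine (h3 i hiU).mono ?_
      rintro j ⟨hj, hjU⟩
      refine ⟨hj, ?_⟩
      by_contra hji
      have hij : i ≤ j := not_lt.1 hji
      apply hj.2
      have hsub : (⋃ l ∈ Iio i, a l) ⊆ ⋃ l ∈ Iio j, a l :=
        biUnion_subset_biUnion_left (fun l (hl : l < i) => lt_of_lt_of_le hl hij)
      have hsub' : (⋃ l ∈ Iio j, a l) ⊆ a j := iUnion₂_subset (fun l hl => hmono (le_of_lt hl))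
      rw [h1 j hjU, h2 j hjU hj.1, (hgood j).retr_self (Xs_mono D (hsub.trans hsub') hyi),
        (hgood' j hj.1).retr_self (Xs_mono D hsub hyi)]
    · -- i is minimal : S is empty
      exfalso
      have hSne : S.Nonempty := closure_nonempty_iff.1 ⟨y, hyS⟩
      obtain ⟨s, hs⟩ := hSne
      exact hex ⟨_, hi ⟨s, hs⟩⟩
  · push Not at hcase
    refine Countable.mono (s₂ := ⋃ s : S, ((jumps D Ψ a x ∩ Iio (q s)) ∪ {q s})) ?_ ?_
    · rintro j ⟨hj, hjU⟩
      obtain ⟨s, hs⟩ := hcase j hjU
      simp only [mem_iUnion]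
      refine ⟨s, ?_⟩
      rcases hs.lt_or_eq with h | h
      · exact Or.inl ⟨hj, h⟩
      · exact Or.inr h
    · exact countable_iUnion (fun s => (h3 _ (hqU s)).union (countable_singleton _))

theorem glue_filtration
    (htight : ∀ (A : Set X) (x : X), x ∈ closure A → ∃ S ⊆ A, S.Countable ∧ x ∈ closure S)
    (hD : DenseRange D) (hΨ : ∀ i, Continuous (Ψ i))
    (hsep : ∀ x y, (∀ i, Ψ i x = Ψ i y) → x = y)
    (hmono : Monotone a) (hcover : ∀ k, ∃ i, k ∈ a i)
    (hgood : ∀ i, Good D Ψ (a i)) (hgood' : ∀ i, (∃ j, j < i) → Good D Ψ (⋃ j ∈ Iio i, a j))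
    (hPC : ∀ i, PC (Xs D (a i))) : PC X := by
  classical
  choose T e he hinj using hPC
  have hsub : ∀ i, (⋃ l ∈ Iio i, a l) ⊆ a i := fun i => iUnion₂_subset (fun l hl => hmono (le_of_lt hl))
  let g : (i : I) → X → T i → ℝ := fun i x => e i ⟨retr D Ψ (a i) x, (hgood i).retr_mem x⟩
  let gm : (i : I) → X → T i → ℝ := fun i x => if h : ∃ j, j < i then
    e i ⟨retr D Ψ (⋃ l ∈ Iio i, a l) x, Xs_mono D (hsub i) ((hgood' i h).retr_mem x)⟩ else 0
  have hjumps_Iio : ∀ x i, (jumps D Ψ a x ∩ Iio i).Countable := by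
    intro x i
    induction i using WellFoundedLT.induction with
    | ind i ih =>
      by_cases hex : ∃ j, j < i
      · refine jumps_aux htight hmono hgood hgood' x (retr D Ψ (⋃ l ∈ Iio i, a l) x) (Iio i) ?_ ?_ ?_ ?_
        · exact (hgood' i hex).retr_mem x
        · intro j hj
          rw [(hgood j).retr_retr (hgood' i hex)]
          exact subset_biUnion_of_mem (u := a) hj
        · intro j hj hexj
          rw [(hgood' j hexj).retr_retr (hgood' i hex)]
          exact biUnion_subset_biUnion_left (fun l (hl : l < j) => lt_trans hl hj)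
        · intro j hj
          exact ih j hj
      · have : jumps D Ψ a x ∩ Iio i = ∅ := by
          ext j
          simp only [mem_inter_iff, mem_Iio, mem_empty_iff_false, iff_false, not_and]
          intro _ hj
          exact hex ⟨j, hj⟩
        rw [this]
        exact countable_empty
  have hjumps : ∀ x, (jumps D Ψ a x).Countable := by
    intro x
    rw [← inter_univ (jumps D Ψ a x)]
    refine jumps_aux htight hmono hgood hgood' x x Set.univ ?_
      (fun _ _ => rfl) (fun _ _ _ => rfl) (fun i _ => hjumps_Iio x i)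
    have : (⋃ i ∈ (Set.univ : Set I), a i) = Set.univ := by
      ext k
      simp only [mem_univ, iUnion_true, mem_iUnion]
      exact iff_true_intro (hcover k)
    rw [this, Xs, image_univ]
    exact hD x
  have hg_iff : ∀ i x y, g i x = g i y ↔ EqOnIdx Ψ (a i) x y := by
    intro i x y
    rw [← (hgood i).retr_eq_iff]
    constructor
    · intro h
      exact congrArg Subtype.val (hinj i h)
    · intro h
      simp only [g]
      congr 1
      exact Subtype.ext h
  refine glue_abstract g gm ?_ ?_ ?_ ?_ ?_ ?_ ?_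
  · intro i
    exact (he i).1.comp (((hgood i).continuous_retr hΨ).subtype_mk _)
  · intro i
    by_cases h : ∃ j, j < i
    · simp only [gm, dif_pos h]
      exact (he i).1.comp (((hgood' i h).continuous_retr hΨ).subtype_mk _)
    · simp only [gm, dif_neg h]
      exact continuous_const
  · intro i x
    exact (he i).2 _
  · intro i x
    by_cases h : ∃ j, j < i
    · simp only [gm, dif_pos h]
      exact (he i).2 _
    · simp only [gm, dif_neg h]
      simp
  · intro i x y hxy
    by_cases h : ∃ j, j < i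
    · simp only [gm, dif_pos h]
      congr 1
      apply Subtype.ext
      apply (hgood' i h).retr_congr
      intro k hk
      simp only [mem_iUnion] at hk
      obtain ⟨j, hj, hkj⟩ := hk
      exact (hg_iff j x y).1 (hxy j hj) k hkj
    · simp only [gm, dif_neg h]
  · intro x
    refine Countable.mono (s₂ := jumps D Ψ a x ∪ {i | ¬ ∃ j, j < i}) ?_ ?_
    · intro i hi
      by_cases h : ∃ j, j < i
      · left
        refine ⟨h, fun heq => hi ?_⟩
        simp only [g, gm, dif_pos h]
        congr 1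
        exact Subtype.ext heq
      · right
        exact h
    · apply (hjumps x).union
      apply Set.Subsingleton.countable
      intro i hi j hj
      by_contra hne
      rcases lt_or_gt_of_ne hne with h | h
      · exact hj ⟨i, h⟩
      · exact hi ⟨j, h⟩
  · intro x y hxy
    apply hsep
    intro k
    obtain ⟨i, hi⟩ := hcover k
    exact (hg_iff i x y).1 (hxy i) k hi

end Glue

end Pool.Agent.Helper27.Corson
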