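import Mathlib
import Pool.Agent.Helper27.Corson4

set_option autoImplicit false

open Set Topology Cardinal

namespace Pool.Agent.Helper27.Corson

section Ops

variable {X : Type} [TopologicalSpace X] [CompactSpace X] [T2Space X]
  {ι : Type} {D : ι → X} {Ψ : ι → X → ℝ}

omit [T2Space X] in
/-- A countable-valued operation whose closed sets are full. -/
theorem exists_full_op (hD : DenseRange D) (hΨ : ∀ i, Continuous (Ψ i)) :
    ∃ G : Finset ι → Set ι, (∀ s, (G s).Countable) ∧
      ∀ a, ClosedUnder G a → ∀ x, ∃ y ∈ Xs D a, EqOnIdx Ψ a x y := by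
  classical
  have h1 : ∀ s : Finset ι, ∃ S : Set ι, S.Countable ∧ ∀ k : ι, ∀ ε > 0, ∃ z ∈ S, ∀ t ∈ s,
      |Ψ t (D z) - Ψ t (D k)| < ε := fun s => exists_countable_piece (fun k t => Ψ t (D k)) s
  choose G hGc hG using h1
  refine ⟨G, hGc, ?_⟩
  intro a ha x
  let q : X → (a → ℝ) := fun y t => Ψ t y
  have hq : Continuous q := continuous_pi (fun t => hΨ t)
  have hcomp : IsCompact (q '' Xs D a) := (isClosed_closure.isCompact).image hq
  have hx : q x ∈ closure (q '' Xs D a) := by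
    rw [mem_closure_iff_nhds]
    intro U hU
    rw [nhds_pi, Filter.mem_pi'] at hU
    obtain ⟨s', V, hV, hVU⟩ := hU
    have h2 : ∀ t, ∃ ε > 0, Metric.ball (q x t) ε ⊆ V t := fun t => Metric.mem_nhds_iff.1 (hV t)
    choose ε hε hεV using h2
    obtain ⟨δ, hδ, hδε⟩ : ∃ δ > 0, ∀ t ∈ s', δ ≤ ε t := by
      rcases s'.eq_empty_or_nonempty with h | h
      · exact ⟨1, one_pos, by simp [h]⟩
      · exact ⟨s'.inf' h ε, by simp [hε], fun t ht => Finset.inf'_le _ ht⟩
    let s : Finset ι := s'.map (Function.Embedding.subtype _)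
    have hsa : (s : Set ι) ⊆ a := by
      intro t ht
      simp only [s, Finset.coe_map, Function.Embedding.subtype_apply, mem_image] at ht
      obtain ⟨t', _, rfl⟩ := ht
      exact t'.2
    have hopen : IsOpen {y : X | ∀ t ∈ s, |Ψ t y - Ψ t x| < δ / 2} := by
      have : {y : X | ∀ t ∈ s, |Ψ t y - Ψ t x| < δ / 2} =
          ⋂ t ∈ s, {y : X | |Ψ t y - Ψ t x| < δ / 2} := by ext y; simp
      rw [this]
      apply isOpen_biInter_finset
      intro t _
      apply isOpen_lt _ continuous_const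
      have := hΨ t
      fun_prop
    obtain ⟨k, hk⟩ := hD.exists_mem_open hopen ⟨x, by
      intro t _
      simp only [sub_self, abs_zero]
      linarith⟩
    obtain ⟨z, hz, hzk⟩ := hG s k (δ / 2) (by linarith)
    have hza : z ∈ a := ha s hsa hz
    refine ⟨q (D z), hVU ?_, D z, subset_closure ⟨z, hza, rfl⟩, rfl⟩
    intro t ht
    apply hεV t
    rw [Metric.mem_ball, Real.dist_eq]
    refine lt_of_lt_of_le ?_ (hδε t ht)
    have hts : (t : ι) ∈ s := by
      simp only [s, Finset.mem_map, Function.Embedding.subtype_apply]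
      exact ⟨t, ht, rfl⟩
    have e1 := hzk t hts
    have e2 := hk t hts
    calc |Ψ t (D z) - Ψ t x| ≤ |Ψ t (D z) - Ψ t (D k)| + |Ψ t (D k) - Ψ t x| := abs_sub_le _ _ _
      _ < δ / 2 + δ / 2 := add_lt_add e1 e2
      _ = δ := by ring
  rw [hcomp.isClosed.closure_eq] at hx
  obtain ⟨y, hy, hyx⟩ := hx
  refine ⟨y, hy, ?_⟩
  intro i hi
  exact (congrFun hyx ⟨i, hi⟩).symm

omit [T2Space X] in
/-- Relative closing-off lemma for Sigma-maps. -/
theorem exists_op_of_sigmaMap (hΨ : ∀ i, Continuous (Ψ i))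
    (hsep : ∀ x y, (∀ i, Ψ i x = Ψ i y) → x = y) (s : Set ι) {T : Type}
    {f : Xs D s → T → ℝ} (hf : SigmaMap f) :
    ∃ F : ι → Set ι, (∀ i, (F i).Countable) ∧
      ∀ a : Set ι, (∀ i ∈ a, i ∈ s → F i ⊆ a) →
        ∀ x y : Xs D s, (x : X) ∈ Xs D (a ∩ s) → (y : X) ∈ Xs D (a ∩ s) →
          EqOnIdx Ψ a x y → f x = f y := by
  classical
  have : CompactSpace (Xs D s) := isCompact_iff_compactSpace.1 isClosed_closure.isCompact
  have hmem : ∀ i ∈ s, D i ∈ Xs D s := fun i hi => subset_closure ⟨i, hi, rfl⟩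
  have h1 : ∀ t : T, ∃ c : Set ι, c.Countable ∧
      ∀ x y : Xs D s, (∀ i ∈ c, Ψ i x = Ψ i y) → f x t = f y t := by
    intro t
    refine exists_countable_dep (K := Xs D s) (fun i x => Ψ i x)
      (fun i => (hΨ i).comp continuous_subtype_val) ?_ (fun x => f x t)
      ((continuous_apply t).comp hf.1)
    intro x y hxy
    exact Subtype.ext (hsep _ _ hxy)
  choose c hcc hc using h1
  refine ⟨fun i => if h : i ∈ s then ⋃ t ∈ Function.support (f ⟨D i, hmem i h⟩), c t else ∅, ?_, ?_⟩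
  · intro i
    by_cases h : i ∈ s
    · simp only [dif_pos h]
      exact (hf.2 _).biUnion (fun t _ => hcc t)
    · simp only [dif_neg h]
      exact countable_empty
  · intro a ha x y hx hy hxy
    funext t
    by_cases ht : ∃ i, ∃ _ : i ∈ a, ∃ h : i ∈ s, f ⟨D i, hmem i h⟩ t ≠ 0
    · obtain ⟨i, hia, his, hit⟩ := ht
      apply hc t x y
      intro k hk
      apply hxy
      have := ha i hia his
      simp only [dif_pos his] at this
      apply this
      simp only [mem_iUnion]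
      exact ⟨t, hit, hk⟩
    · push Not at ht
      have hZ : IsClosed (Subtype.val '' {z : Xs D s | f z t = 0}) := by
        apply (isClosed_closure.isClosedEmbedding_subtypeVal.isClosedMap)
        exact isClosed_eq ((continuous_apply t).comp hf.1) continuous_const
      have hsub : D '' (a ∩ s) ⊆ Subtype.val '' {z : Xs D s | f z t = 0} := by
        rintro _ ⟨i, ⟨hia, his⟩, rfl⟩
        exact ⟨⟨D i, hmem i his⟩, ht i hia his, rfl⟩
      have hcl := closure_minimal hsub hZ
      obtain ⟨x', hx', hxx'⟩ := hcl hx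
      obtain ⟨y', hy', hyy'⟩ := hcl hy
      have ex : x' = x := Subtype.ext hxx'
      have ey : y' = y := Subtype.ext hyy'
      rw [← ex, ← ey]
      rw [show f x' t = 0 from hx', show f y' t = 0 from hy']

omit [T2Space X] in
/-- Global closing-off lemma for Sigma-maps. -/
theorem exists_op_of_sigmaMap' (hΨ : ∀ i, Continuous (Ψ i))
    (hD : DenseRange D)
    (hsep : ∀ x y, (∀ i, Ψ i x = Ψ i y) → x = y) {T : Type}
    {f : X → T → ℝ} (hf : SigmaMap f) :
    ∃ F : ι → Set ι, (∀ i, (F i).Countable) ∧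
      ∀ a : Set ι, (∀ i ∈ a, F i ⊆ a) →
        ∀ x y : X, x ∈ Xs D a → y ∈ Xs D a → EqOnIdx Ψ a x y → f x = f y := by
  have huniv : ∀ x, x ∈ Xs D (Set.univ : Set ι) := by
    intro x
    rw [Xs, image_univ]
    exact hD x
  obtain ⟨F, hF, hF'⟩ := exists_op_of_sigmaMap (D := D) (Ψ := Ψ) hΨ hsep Set.univ
    (f := fun x => f x) (hf.comp continuous_subtype_val)
  refine ⟨F, hF, ?_⟩
  intro a ha x y hx hy hxy
  have := hF' a (fun i hi _ => ha i hi) ⟨x, huniv x⟩ ⟨y, huniv y⟩
    (by rw [inter_univ]; exact hx) (by rw [inter_univ]; exact hy) hxy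
  exact this

omit [CompactSpace X] [T2Space X] in
theorem denseRange_Xs (s : Set ι) (J : Type) (p : J → s) (hp : Function.Surjective p) :
    DenseRange (fun j : J => (⟨D (p j), subset_closure ⟨p j, (p j).2, rfl⟩⟩ : Xs D s)) := by
  intro x
  rw [closure_subtype]
  have hx := x.2
  refine closure_mono ?_ hx
  rintro _ ⟨i, hi, rfl⟩
  obtain ⟨j, hj⟩ := hp ⟨i, hi⟩
  refine ⟨⟨D i, subset_closure ⟨i, hi, rfl⟩⟩, ⟨j, ?_⟩, rfl⟩
  simp [hj]

omit [T2Space X] in
/-- Small separating subfamilies for closed subspaces of small density. -/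
theorem exists_sep_set (hX : Splittable X) (hΨ : ∀ i, Continuous (Ψ i))
    (hsep : ∀ x y, (∀ i, Ψ i x = Ψ i y) → x = y) (s : Set ι) {κ : Cardinal.{0}}
    (hκ : ℵ₀ ≤ κ) (hs : #s ≤ κ) :
    ∃ b : Set ι, #b ≤ κ ∧ ∀ x ∈ Xs D s, ∀ y ∈ Xs D s, EqOnIdx Ψ b x y → x = y := by
  classical
  rcases s.eq_empty_or_nonempty with hempty | hne
  · refine ⟨∅, by simp, ?_⟩
    intro x hx
    rw [hempty, Xs, image_empty, closure_empty] at hx
    exact absurd hx (notMem_empty x)
  have : Nonempty s := hne.to_subtype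
  have : CompactSpace (Xs D s) := isCompact_iff_compactSpace.1 isClosed_closure.isCompact
  have hdense := denseRange_Xs (D := D) s (s × ℕ) Prod.fst Prod.fst_surjective
  obtain ⟨Φ, hΦc, hΦ⟩ := (hX.subtype (Xs D s)).exists_sep_family hdense
  have h1 : ∀ j : s × ℕ, ∃ c : Set ι, c.Countable ∧
      ∀ x y : Xs D s, (∀ i ∈ c, Ψ i x = Ψ i y) → Φ j x = Φ j y := by
    intro j
    refine exists_countable_dep (K := Xs D s) (fun i x => Ψ i x)
      (fun i => (hΨ i).comp continuous_subtype_val) ?_ (Φ j) (hΦc j)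
    intro x y hxy
    exact Subtype.ext (hsep _ _ hxy)
  choose c hcc hc using h1
  refine ⟨⋃ j, c j, ?_, ?_⟩
  · refine (Cardinal.mk_iUnion_le _).trans ?_
    refine (mul_le_mul' (b := κ) (d := κ) ?_ (ciSup_le' (fun j => ?_))).trans ?_
    · rw [Cardinal.mk_prod]
      simp only [Cardinal.lift_id, Cardinal.mk_nat]
      refine (mul_le_mul' hs hκ).trans ?_
      rw [Cardinal.mul_eq_self hκ]
    · exact ((Cardinal.le_aleph0_iff_set_countable).2 (hcc j)).trans hκ
    · rw [Cardinal.mul_eq_self hκ]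
  · intro x hx y hy hxy
    have := hΦ ⟨x, hx⟩ ⟨y, hy⟩ (fun j => hc j _ _ (fun i hi => hxy i (mem_iUnion.2 ⟨j, hi⟩)))
    exact congrArg Subtype.val this

end Ops

end Pool.Agent.Helper27.Corson
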