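import Mathlib
import Pool.Agent.Helper27.Corson5

set_option autoImplicit false

open Set Topology Cardinal

namespace Pool.Agent.Helper27.Corson

/-- The induction hypothesis below a cardinal. -/
def IH (l : Cardinal.{0}) : Prop :=
  ∀ (Y : Type) [TopologicalSpace Y] [CompactSpace Y] [T2Space Y] (J : Type) (D' : J → Y),
    #J < l → DenseRange D' → Splittable Y → PC Y

theorem closedUnder_of_le {ι : Type} {G G' : Finset ι → Set ι} (h : ∀ s, G' s ⊆ G s) {a : Set ι}
    (ha : ClosedUnder G a) : ClosedUnder G' a := fun s hs => (h s).trans (ha s hs)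

section Cases

variable {X : Type} [TopologicalSpace X] [CompactSpace X] [T2Space X]
  {ι : Type} {D : ι → X} {Ψ : ι → X → ℝ}

theorem Splittable.tight_idx (hX : Splittable X) {a : Set ι} {x : X} (hx : x ∈ Xs D a) :
    ∃ S ⊆ a, S.Countable ∧ x ∈ Xs D S := by
  obtain ⟨S, hS, hSc, hxS⟩ := hX.tight hx
  obtain ⟨S', hS'a, rfl⟩ := subset_image_iff.1 hS
  obtain ⟨S2, h1, h2⟩ := exists_subset_bijOn S' D
  refine ⟨S2, h1.trans hS'a, ?_, ?_⟩
  · rw [← h2.image_eq] at hSc
    exact countable_of_injective_of_countable_image h2.injOn hSc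
  · rw [Xs, h2.image_eq]
    exact hxS

theorem IH.pc_Xs (hIH : IH #ι) (hX : Splittable X) {s : Set ι} (hs : #s < #ι) : PC (Xs D s) := by
  have : CompactSpace (Xs D s) := isCompact_iff_compactSpace.1 isClosed_closure.isCompact
  exact hIH (Xs D s) s _ hs (denseRange_Xs (D := D) s s id Function.surjective_id)
    (hX.subtype (Xs D s))

theorem mk_Iic_lt [LinearOrder ι] (hunc : ℵ₀ < #ι) (hinit : ∀ i : ι, #(Iio i) < #ι) (i : ι) :
    #(Iic i) < #ι := by
  have h1 : Iic i = Iio i ∪ {i} := (Iio_union_right).symm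
  rw [h1]
  refine (Cardinal.mk_union_le _ _).trans_lt ?_
  refine Cardinal.add_lt_of_lt hunc.le (hinit i) ?_
  rw [Cardinal.mk_singleton]
  exact Cardinal.one_lt_aleph0.trans hunc

theorem closed_iUnion_Iio {I : Type} [LinearOrder I] {G : Finset ι → Set ι} {a : I → Set ι}
    (hmono : Monotone a) (ha : ∀ i, ClosedUnder G (a i)) {i : I} (hi : ∃ j, j < i) :
    ClosedUnder G (⋃ j ∈ Iio i, a j) := by
  rw [biUnion_eq_iUnion]
  obtain ⟨j, hj⟩ := hi
  have : Nonempty (Iio i) := ⟨⟨j, hj⟩⟩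
  apply closed_iUnion_directed
  · apply Monotone.directed_le
    intro x y hxy
    exact hmono hxy
  · intro j
    exact ha _

/-- Singular case, uncountable cofinality. -/
theorem case_singular [LinearOrder ι] [WellFoundedLT ι] (hIH : IH #ι) (hX : Splittable X)
    (hD : DenseRange D) (hΨ : ∀ i, Continuous (Ψ i))
    (hsep : ∀ x y, (∀ i, Ψ i x = Ψ i y) → x = y)
    (hunc : ℵ₀ < #ι) (hinit : ∀ i : ι, #(Iio i) < #ι)
    (hbdd : ∀ S : Set ι, S.Countable → ∃ j, ∀ i ∈ S, i < j)
    (K : Set ι) (hK : #K < #ι) (hKcof : ∀ i, ∃ k ∈ K, i ≤ k) : PC X := by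
  classical
  have hpc : ∀ k : ι, PC (Xs D (Iic k)) := fun k => hIH.pc_Xs hX (mk_Iic_lt hunc hinit k)
  choose T f hf hfinj using hpc
  have h1 := fun k : ι => exists_op_of_sigmaMap (D := D) (Ψ := Ψ) hΨ hsep (Iic k) (hf k)
  choose F hFc hF using h1
  obtain ⟨G₀, hG₀c, hG₀⟩ := exists_full_op (Ψ := Ψ) hD hΨ
  let G : Finset ι → Set ι := fun s => G₀ s ∪ ⋃ k ∈ K, ⋃ i ∈ s, F k i
  let κ : Cardinal := max #K ℵ₀
  have hκ0 : ℵ₀ ≤ κ := le_max_right _ _
  have hκ : κ < #ι := max_lt hK hunc
  have hGκ : ∀ s, #(G s) ≤ κ := by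
    intro s
    refine (Cardinal.mk_union_le _ _).trans ?_
    have e1 : #(G₀ s) ≤ κ := ((Cardinal.le_aleph0_iff_set_countable).2 (hG₀c s)).trans hκ0
    have e2 : #(⋃ k ∈ K, ⋃ i ∈ s, F k i : Set ι) ≤ κ := by
      refine (Cardinal.mk_biUnion_le _ _).trans ?_
      refine (mul_le_mul' (b := κ) (d := κ) (le_max_left _ _) (ciSup_le' (fun k => ?_))).trans ?_
      · have : (⋃ i ∈ s, F k i).Countable := s.countable_toSet.biUnion (fun i _ => hFc k i)
        exact ((Cardinal.le_aleph0_iff_set_countable).2 this).trans hκ0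
      · rw [Cardinal.mul_eq_self hκ0]
    refine (add_le_add e1 e2).trans ?_
    rw [Cardinal.add_eq_self hκ0]
  have hgood : ∀ a : Set ι, ClosedUnder G a → Good D Ψ a := by
    intro a ha
    refine ⟨hG₀ a (closedUnder_of_le (fun s => subset_union_left) ha), ?_⟩
    intro x hx y hy hxy
    obtain ⟨S2, hS2a, hS2c, hxS⟩ := hX.tight_idx hx
    obtain ⟨R2, hR2a, hR2c, hyR⟩ := hX.tight_idx hy
    obtain ⟨j, hj⟩ := hbdd (S2 ∪ R2) (hS2c.union hR2c)
    obtain ⟨k, hkK, hjk⟩ := hKcof j
    have hxk : x ∈ Xs D (a ∩ Iic k) := by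
      refine closure_mono (image_mono ?_) hxS
      intro i hi
      exact ⟨hS2a hi, ((hj i (Or.inl hi)).le).trans hjk⟩
    have hyk : y ∈ Xs D (a ∩ Iic k) := by
      refine closure_mono (image_mono ?_) hyR
      intro i hi
      exact ⟨hR2a hi, ((hj i (Or.inr hi)).le).trans hjk⟩
    have hsubk : Xs D (a ∩ Iic k) ⊆ Xs D (Iic k) := Xs_mono D inter_subset_right
    have haF : ∀ i ∈ a, i ∈ Iic k → F k i ⊆ a := by
      intro i hi _
      have h2 := ha {i} (by simpa using hi)
      refine Subset.trans ?_ h2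
      refine Subset.trans ?_ subset_union_right
      intro z hz
      simp only [mem_iUnion]
      exact ⟨k, hkK, i, by simp, hz⟩
    have := hF k a haF ⟨x, hsubk hxk⟩ ⟨y, hsubk hyk⟩ hxk hyk hxy
    exact congrArg Subtype.val (hfinj k this)
  let a : ι → Set ι := fun i => hull G (Iic i)
  have hmono : Monotone a := fun i j hij => hull_mono (Iic_subset_Iic.2 hij)
  refine glue_filtration (D := D) (Ψ := Ψ) (a := a) (fun A x hx => hX.tight hx) hD hΨ hsep hmono
    (fun k => ⟨k, subset_hull _ (mem_Iic.2 le_rfl)⟩) (fun i => hgood _ (closed_hull _))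
    (fun i hi => hgood _ (closed_iUnion_Iio hmono (fun j => closed_hull _) hi)) ?_
  intro i
  apply hIH.pc_Xs hX
  have h2 : #(a i) ≤ max #(Iic i) κ :=
    mk_hull_le (hκ0.trans (le_max_right _ _)) (fun s => (hGκ s).trans (le_max_right _ _))
      (le_max_left _ _)
  exact h2.trans_lt (max_lt (mk_Iic_lt hunc hinit i) hκ)

/-- Regular uncountable case. -/
theorem case_regular [LinearOrder ι] [WellFoundedLT ι] (hIH : IH #ι) (hX : Splittable X)
    (hD : DenseRange D) (hΨ : ∀ i, Continuous (Ψ i))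
    (hsep : ∀ x y, (∀ i, Ψ i x = Ψ i y) → x = y)
    (hunc : ℵ₀ < #ι) (hinit : ∀ i : ι, #(Iio i) < #ι)
    (hreg : ∀ K : Set ι, #K < #ι → ∃ j, ∀ i ∈ K, i < j) : PC X := by
  classical
  obtain ⟨G₀, hG₀c, hG₀⟩ := exists_full_op (Ψ := Ψ) hD hΨ
  have hIic := mk_Iic_lt hunc hinit
  -- separating sets
  have h1 : ∀ i : ι, ∃ b : Set ι, #b < #ι ∧
      ∀ x ∈ Xs D (Iic i), ∀ y ∈ Xs D (Iic i), EqOnIdx Ψ b x y → x = y := by
    intro i
    obtain ⟨b, hb, hb'⟩ := exists_sep_set (D := D) hX hΨ hsep (Iic i) (κ := max #(Iic i) ℵ₀)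
      (le_max_right _ _) (le_max_left _ _)
    exact ⟨b, hb.trans_lt (max_lt (hIic i) hunc), hb'⟩
  choose P hPc hP using h1
  let G₁ : Finset ι → Set ι := fun s => G₀ s ∪ ⋃ i ∈ s, P i
  let Bad : ι → Prop := fun i => ClosedUnder G₁ (Iio i) ∧
    ∃ x ∈ Xs D (Iio i), ∃ y ∈ Xs D (Iio i), x ≠ y ∧ EqOnIdx Ψ (Iio i) x y
  -- bad pairs
  have h2 : ∀ i, ∃ x y : X, Bad i → x ∈ Xs D (Iio i) ∧ y ∈ Xs D (Iio i) ∧ x ≠ y ∧
      EqOnIdx Ψ (Iio i) x y ∧ ∀ j < i, x ∉ Xs D (Iic j) := by
    intro i
    by_cases hi : Bad i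
    · obtain ⟨hcl, x, hx, y, hy, hxy, hE⟩ := hi
      by_cases hx' : ∀ j < i, x ∉ Xs D (Iic j)
      · exact ⟨x, y, fun _ => ⟨hx, hy, hxy, hE, hx'⟩⟩
      · refine ⟨y, x, fun _ => ⟨hy, hx, hxy.symm, fun k hk => (hE k hk).symm, ?_⟩⟩
        push Not at hx'
        obtain ⟨j, hji, hxj⟩ := hx'
        intro j' hj'i hyj'
        apply hxy
        have hm : max j j' < i := max_lt hji hj'i
        apply hP (max j j') x (Xs_mono D (Iic_subset_Iic.2 (le_max_left _ _)) hxj)
          y (Xs_mono D (Iic_subset_Iic.2 (le_max_right _ _)) hyj')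
        intro k hk
        apply hE
        have h3 := hcl {max j j'} (by simpa using hm)
        apply h3
        right
        simp only [mem_iUnion]
        exact ⟨_, by simp, hk⟩
    · -- default values : any point
      obtain ⟨x₀⟩ : Nonempty X := ⟨D i⟩
      exact ⟨x₀, x₀, fun h => absurd h hi⟩
  choose xx yy hxy using h2
  -- the two-colouring
  let tt : ι → Prop := WellFounded.fix (r := fun a b : ι => a < b) wellFounded_lt
    (fun i rec => ¬ ∃ j, ∃ h : j < i, Bad j ∧ yy i = xx j ∧ rec j h)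
  have htt : ∀ i, tt i ↔ ¬ ∃ j, ∃ _ : j < i, Bad j ∧ yy i = xx j ∧ tt j := by
    intro i
    have := WellFounded.fix_eq (r := fun a b : ι => a < b) wellFounded_lt
      (C := fun _ => Prop)
      (fun i rec => ¬ ∃ j, ∃ h : j < i, Bad j ∧ yy i = xx j ∧ rec j h) i
    exact iff_of_eq this
  let A : Set X := {z | ∃ i, Bad i ∧ z = xx i ∧ tt i}
  have hxx_lt : ∀ i j, Bad i → Bad j → i < j → xx i ≠ xx j := by
    intro i j hi hj hij heq
    apply (hxy j hj).2.2.2.2 i hij
    rw [← heq]
    exact Xs_mono D Iio_subset_Iic_self (hxy i hi).1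
  have hxx_inj : ∀ i j, Bad i → Bad j → xx i = xx j → i = j := by
    intro i j hi hj heq
    by_contra hne
    rcases lt_or_gt_of_ne hne with h | h
    · exact hxx_lt i j hi hj h heq
    · exact hxx_lt j i hj hi h heq.symm
  have hAx : ∀ i, Bad i → (xx i ∈ A ↔ tt i) := by
    intro i hi
    constructor
    · rintro ⟨j, hj, heq, ht⟩
      rwa [hxx_inj i j hi hj heq]
    · intro ht
      exact ⟨i, hi, rfl, ht⟩
  have hAy : ∀ i, Bad i → (yy i ∈ A ↔ ¬ tt i) := by
    intro i hi
    rw [htt i, not_not]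
    constructor
    · rintro ⟨j, hj, heq, ht⟩
      rcases lt_trichotomy j i with h | h | h
      · exact ⟨j, h, hj, heq, ht⟩
      · subst h
        exact absurd heq.symm (hxy j hj).2.2.1
      · exfalso
        apply (hxy j hj).2.2.2.2 i h
        rw [← heq]
        exact Xs_mono D Iio_subset_Iic_self (hxy i hi).2.1
    · rintro ⟨j, _, hj, heq, ht⟩
      exact ⟨j, hj, heq, ht⟩
  obtain ⟨T, f, hf, hfA⟩ := hX A
  obtain ⟨F, hFc, hF⟩ := exists_op_of_sigmaMap' (D := D) (Ψ := Ψ) hΨ hD hsep hf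
  -- the final operation
  let H : ι → Set ι := fun i => P i ∪ F i ∪ Iio i
  let G : Finset ι → Set ι := fun s => G₀ s ∪ ⋃ i ∈ s, H i
  have hHc : ∀ i, #(H i) < #ι := by
    intro i
    refine (Cardinal.mk_union_le _ _).trans_lt (Cardinal.add_lt_of_lt hunc.le ?_ (hinit i))
    refine (Cardinal.mk_union_le _ _).trans_lt (Cardinal.add_lt_of_lt hunc.le (hPc i) ?_)
    exact ((Cardinal.le_aleph0_iff_set_countable).2 (hFc i)).trans_lt hunc
  have hGc : ∀ s, #(G s) < #ι := by
    intro s
    refine (Cardinal.mk_union_le _ _).trans_lt (Cardinal.add_lt_of_lt hunc.le ?_ ?_)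
    · exact ((Cardinal.le_aleph0_iff_set_countable).2 (hG₀c s)).trans_lt hunc
    · induction s using Finset.induction_on with
      | empty => simpa using (Cardinal.aleph0_pos).trans hunc
      | insert i s _ ih =>
        rw [Finset.set_biUnion_insert]
        exact (Cardinal.mk_union_le _ _).trans_lt (Cardinal.add_lt_of_lt hunc.le (hHc i) ih)
  have hgood : ∀ a : Set ι, ClosedUnder G a → #a < #ι → Good D Ψ a := by
    intro a ha hac
    refine ⟨hG₀ a (closedUnder_of_le (fun s => subset_union_left) ha), ?_⟩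
    -- a is an initial segment
    have hH : ∀ i ∈ a, H i ⊆ a := by
      intro i hi
      have h3 := ha {i} (by simpa using hi)
      refine Subset.trans ?_ h3
      intro z hz
      right
      simp only [mem_iUnion]
      exact ⟨i, by simp, hz⟩
    have hne : (aᶜ).Nonempty := by
      by_contra hcon
      rw [not_nonempty_iff_eq_empty, compl_empty_iff] at hcon
      rw [hcon, Cardinal.mk_univ] at hac
      exact lt_irrefl _ hac
    obtain ⟨m, hm, hmin⟩ := WellFounded.has_min (wellFounded_lt (α := ι)) aᶜ hne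
    have haIio : a = Iio m := by
      ext i
      constructor
      · intro hi
        by_contra hcon
        have hmi : m ≤ i := not_lt.1 hcon
        rcases hmi.lt_or_eq with h | h
        · exact hm (hH i hi (Or.inr h))
        · exact hm (h ▸ hi)
      · intro hi
        by_contra hcon
        exact hmin i hcon hi
    intro x hx y hy hE
    by_contra hne'
    have hBad : Bad m := by
      refine ⟨?_, x, haIio ▸ hx, y, haIio ▸ hy, hne', haIio ▸ hE⟩
      rw [← haIio]
      apply closedUnder_of_le _ ha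
      intro s
      apply union_subset_union_right
      apply iUnion₂_mono
      intro i _
      exact (subset_union_left).trans subset_union_left
    have h4 := hxy m hBad
    rw [← haIio] at h4
    have h5 := hF a (fun i hi => (subset_union_right.trans subset_union_left).trans (hH i hi))
      (xx m) (yy m) h4.1 h4.2.1 h4.2.2.2.1
    have h6 := hfA _ _ h5
    rw [hAx m hBad, hAy m hBad] at h6
    tauto
  let a : ι → Set ι := fun i => hull G (Iic i)
  have hmono : Monotone a := fun i j hij => hull_mono (Iic_subset_Iic.2 hij)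
  -- boundedness
  have hstep : ∀ m : ι, ∃ m', m < m' ∧ ∀ s : Finset ι, (s : Set ι) ⊆ Iic m → G s ⊆ Iio m' := by
    intro m
    have h3 : ∀ s : Finset ι, ∃ j, ∀ i ∈ G s, i < j := fun s => hreg (G s) (hGc s)
    choose β hβ using h3
    obtain ⟨j, hj⟩ := hreg (β '' {s : Finset ι | (s : Set ι) ⊆ Iic m}) (by
      refine Cardinal.mk_image_le.trans_lt ?_
      refine (mk_finset_subset_le (κ := max #(Iic m) ℵ₀) (le_max_right _ _) (le_max_left _ _)).trans_lt ?_
      exact max_lt (hIic m) hunc)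
    obtain ⟨j', hj'⟩ := hreg {m, j} (by
      refine lt_of_le_of_lt ?_ hunc
      rw [Cardinal.le_aleph0_iff_set_countable]
      exact (Set.toFinite _).countable)
    refine ⟨j', hj' m (by simp), ?_⟩
    intro s hs i hi
    have e1 := hβ s i hi
    have e2 := hj (β s) ⟨s, hs, rfl⟩
    have e3 := hj' j (by simp)
    exact e1.trans (e2.trans e3)
  choose nx hnx hnx' using hstep
  have hac : ∀ i, #(a i) < #ι := by
    intro i
    let sq : ℕ → ι := fun n => nx^[n] i
    have hsq : ∀ n, sq (n+1) = nx (sq n) := fun n => Function.iterate_succ_apply' nx n i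
    have hsqm : Monotone sq := monotone_nat_of_le_succ (fun n => by rw [hsq]; exact (hnx _).le)
    have hU : ClosedUnder G (⋃ n, Iic (sq n)) := by
      intro s hs
      have hdir : Directed (· ⊆ ·) (fun n => Iic (sq n)) :=
        Monotone.directed_le (fun m n hmn => Iic_subset_Iic.2 (hsqm hmn))
      obtain ⟨n, hn⟩ := hdir.exists_mem_subset_of_finset_subset_biUnion hs
      refine Subset.trans ?_ (subset_iUnion (fun n => Iic (sq n)) (n+1))
      rw [hsq]
      exact (hnx' (sq n) s hn).trans Iio_subset_Iic_self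
    have hsub : a i ⊆ ⋃ n, Iic (sq n) :=
      hull_subset (subset_iUnion (fun n => Iic (sq n)) 0) hU
    obtain ⟨M, hM⟩ := hreg (range sq) (by
      refine lt_of_le_of_lt ?_ hunc
      rw [Cardinal.le_aleph0_iff_set_countable]
      exact countable_range sq)
    refine (Cardinal.mk_le_mk_of_subset (hsub.trans ?_)).trans_lt (hinit M)
    intro z hz
    obtain ⟨n, hn⟩ := mem_iUnion.1 hz
    exact lt_of_le_of_lt hn (hM _ ⟨n, rfl⟩)
  refine glue_filtration (D := D) (Ψ := Ψ) (a := a) (fun A x hx => hX.tight hx) hD hΨ hsep hmono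
    (fun k => ⟨k, subset_hull _ (mem_Iic.2 le_rfl)⟩) (fun i => hgood _ (closed_hull _) (hac i))
    (fun i hi => hgood _ (closed_iUnion_Iio hmono (fun j => closed_hull _) hi) ?_)
    (fun i => hIH.pc_Xs hX (hac i))
  refine (Cardinal.mk_le_mk_of_subset ?_).trans_lt (hac i)
  exact iUnion₂_subset (fun j hj => hmono (le_of_lt hj))

end Cases

end Pool.Agent.Helper27.Corson
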