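import Mathlib
import Pool.Agent.Helper27.Corson6

set_option autoImplicit false

open Set Topology Cardinal

namespace Pool.Agent.Helper27.Corson

/-- A well-order of size `ℵ₁` all of whose countable subsets are bounded. -/
theorem exists_omega1 : ∃ (W : Type) (_ : LinearOrder W) (_ : WellFoundedLT W),
    #W = ℵ₁ ∧ ∀ S : Set W, S.Countable → ∃ w, ∀ s ∈ S, s < w := by
  refine ⟨(ℵ₁ : Cardinal.{0}).ord.ToType, inferInstance, inferInstance, ?_, ?_⟩
  · exact Cardinal.mk_ord_toType _
  · intro S hS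
    by_contra hcon
    push Not at hcon
    have hW : #((ℵ₁ : Cardinal.{0}).ord.ToType) = ℵ₁ := Cardinal.mk_ord_toType _
    have hcover : (Set.univ : Set (ℵ₁ : Cardinal.{0}).ord.ToType) = ⋃ s ∈ S, Iic s := by
      ext w
      simp only [mem_univ, mem_iUnion, true_iff]
      obtain ⟨s, hs, hws⟩ := hcon w
      exact ⟨s, hs, hws⟩
    have hcount : (Set.univ : Set (ℵ₁ : Cardinal.{0}).ord.ToType).Countable := by
      rw [hcover]
      refine hS.biUnion (fun s _ => ?_)
      have h1 : Iic s = Iio s ∪ {s} := (Iio_union_right).symm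
      rw [h1]
      apply Countable.union _ (countable_singleton s)
      rw [← Cardinal.le_aleph0_iff_set_countable]
      have h2 : #(Iio s) < ℵ₁ := by
        have h3 := Cardinal.mk_Iio_lt s (by rw [hW]; exact (Ordinal.type_toType _).symm)
        rwa [hW] at h3
      have h4 : #(Iio s) < Order.succ ℵ₀ := by rw [Cardinal.succ_aleph0]; exact h2
      exact Order.lt_succ_iff.1 h4
    rw [← Cardinal.le_aleph0_iff_set_countable, Cardinal.mk_univ, hW] at hcount
    exact absurd (Cardinal.aleph0_lt_aleph_one) (not_lt.2 hcount)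

section Cases

variable {X : Type} [TopologicalSpace X] [CompactSpace X] [T2Space X]
  {ι : Type} {D : ι → X} {Ψ : ι → X → ℝ}

/-- Good sets of any size `≥ ℵ₁` exist. -/
theorem exists_good_above (hX : Splittable X)
    (hD : DenseRange D) (hΨ : ∀ i, Continuous (Ψ i))
    (hsep : ∀ x y, (∀ i, Ψ i x = Ψ i y) → x = y)
    {ν : Cardinal.{0}} (hν : ℵ₁ ≤ ν) (a₀ : Set ι) (ha₀ : #a₀ ≤ ν) :
    ∃ a : Set ι, a₀ ⊆ a ∧ #a ≤ ν ∧ Good D Ψ a := by
  classical
  have hν0 : ℵ₀ ≤ ν := (Cardinal.aleph0_lt_aleph_one).le.trans hν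
  obtain ⟨G₀, hG₀c, hG₀⟩ := exists_full_op (Ψ := Ψ) hD hΨ
  have h1 : ∀ a : Set ι, ∃ b : Set ι, #a ≤ ν → a ⊆ b ∧ #b ≤ ν ∧ ClosedUnder G₀ b ∧
      ∀ x ∈ Xs D a, ∀ y ∈ Xs D a, EqOnIdx Ψ b x y → x = y := by
    intro a
    by_cases ha : #a ≤ ν
    · obtain ⟨b, hb, hb'⟩ := exists_sep_set (D := D) hX hΨ hsep a hν0 ha
      refine ⟨hull G₀ (a ∪ b), fun _ => ⟨subset_union_left.trans (subset_hull _), ?_, closed_hull _, ?_⟩⟩
      · apply mk_hull_le hν0 (fun s => ((Cardinal.le_aleph0_iff_set_countable).2 (hG₀c s)).trans hν0)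
        refine (Cardinal.mk_union_le _ _).trans ((add_le_add ha hb).trans ?_)
        rw [Cardinal.add_eq_self hν0]
      · intro x hx y hy hxy
        exact hb' x hx y hy (fun i hi => hxy i (subset_hull _ (Or.inr hi)))
    · exact ⟨∅, fun h => absurd h ha⟩
  choose H hH using h1
  obtain ⟨W, _, _, hW, hWb⟩ := exists_omega1
  let b : W → Set ι := WellFounded.fix (r := fun a b : W => a < b) wellFounded_lt
    (fun w rec => H (a₀ ∪ ⋃ v, ⋃ h : v < w, rec v h))
  have hb : ∀ w, b w = H (a₀ ∪ ⋃ v, ⋃ _ : v < w, b v) := by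
    intro w
    exact WellFounded.fix_eq (r := fun a b : W => a < b) wellFounded_lt
      (C := fun _ => Set ι)
      (fun w rec => H (a₀ ∪ ⋃ v, ⋃ h : v < w, rec v h)) w
  have hbν : ∀ w, #(b w) ≤ ν ∧ #(a₀ ∪ ⋃ v, ⋃ _ : v < w, b v : Set ι) ≤ ν := by
    intro w
    induction w using WellFoundedLT.induction with
    | ind w ih =>
      have h2 : #(a₀ ∪ ⋃ v, ⋃ _ : v < w, b v : Set ι) ≤ ν := by
        refine (Cardinal.mk_union_le _ _).trans ?_
        have h3 : #(⋃ v, ⋃ _ : v < w, b v : Set ι) ≤ ν := by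
          refine (Cardinal.mk_iUnion_le _).trans ?_
          refine (mul_le_mul' (b := ν) (d := ν) (hW.le.trans hν) (ciSup_le' (fun v => ?_))).trans ?_
          · by_cases hv : v < w
            · simp only [hv, iUnion_true]
              exact (ih v hv).1
            · simp [hv]
          · rw [Cardinal.mul_eq_self hν0]
        refine (add_le_add ha₀ h3).trans ?_
        rw [Cardinal.add_eq_self hν0]
      refine ⟨?_, h2⟩
      rw [hb]
      exact (hH _ h2).2.1
  have hbH := fun w => hH _ (hbν w).2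
  simp only [← hb] at hbH
  have hbmono : Monotone b := by
    intro v w hvw
    rcases hvw.lt_or_eq with h | h
    · refine Subset.trans ?_ (hbH w).1
      refine Subset.trans ?_ subset_union_right
      exact subset_iUnion₂ (s := fun v (_ : v < w) => b v) v h
    · rw [h]
  have hWne : Nonempty W := by
    obtain ⟨w, _⟩ := hWb ∅ countable_empty
    exact ⟨w⟩
  refine ⟨⋃ w, b w, ?_, ?_, ?_, ?_⟩
  · obtain ⟨w⟩ := hWne
    exact (subset_union_left.trans (hbH w).1).trans (subset_iUnion b w)
  · refine (Cardinal.mk_iUnion_le _).trans ?_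
    refine (mul_le_mul' (hW.le.trans hν) (ciSup_le' (fun v => (hbν v).1))).trans ?_
    rw [Cardinal.mul_eq_self hν0]
  · apply hG₀
    exact closed_iUnion_directed b hbmono.directed_le (fun w => (hbH w).2.2.1)
  · intro x hx y hy hxy
    obtain ⟨S, hS, hSc, hxS⟩ := hX.tight_idx hx
    obtain ⟨R, hR, hRc, hyR⟩ := hX.tight_idx hy
    have h3 : ∀ i : (S ∪ R : Set ι), ∃ w, (i : ι) ∈ b w := by
      intro i
      rcases i.2 with h | h
      · exact mem_iUnion.1 (hS h)
      · exact mem_iUnion.1 (hR h)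
    choose q hq using h3
    have : Countable (S ∪ R : Set ι) := hSc.union hRc
    obtain ⟨v, hv⟩ := hWb (range q) (countable_range q)
    obtain ⟨w, hw⟩ := hWb {v} (countable_singleton v)
    have hvw : v < w := hw v rfl
    have hSb : S ⊆ b v := fun i hi => hbmono (hv _ ⟨⟨i, Or.inl hi⟩, rfl⟩).le (hq ⟨i, Or.inl hi⟩)
    have hRb : R ⊆ b v := fun i hi => hbmono (hv _ ⟨⟨i, Or.inr hi⟩, rfl⟩).le (hq ⟨i, Or.inr hi⟩)
    have hbv : b v ⊆ a₀ ∪ ⋃ v, ⋃ _ : v < w, b v :=
      Subset.trans (subset_iUnion₂ (s := fun v (_ : v < w) => b v) v hvw) subset_union_right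
    apply (hbH w).2.2.2 x (Xs_mono D (hSb.trans hbv) hxS) y (Xs_mono D (hRb.trans hbv) hyR)
    intro i hi
    exact hxy i (mem_iUnion.2 ⟨w, hi⟩)

/-- Countable cofinality. -/
theorem case_countable_cof [LinearOrder ι] [WellFoundedLT ι] (hIH : IH #ι) (hX : Splittable X)
    (hD : DenseRange D) (hΨ : ∀ i, Continuous (Ψ i))
    (hsep : ∀ x y, (∀ i, Ψ i x = Ψ i y) → x = y)
    (hunc : ℵ₀ < #ι) (hinit : ∀ i : ι, #(Iio i) < #ι)
    (u : ℕ → ι) (hu : ∀ j, ∃ n, j ≤ u n) : PC X := by
  classical
  have hIic := mk_Iic_lt hunc hinit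
  -- ℵ₁ < #ι
  have h1 : ℵ₁ < #ι := by
    by_contra hcon
    have hle : #ι ≤ ℵ₁ := not_lt.1 hcon
    have hc : (Set.univ : Set ι).Countable := by
      have : (Set.univ : Set ι) = ⋃ n, Iic (u n) := by
        ext j
        simp only [mem_univ, mem_iUnion, true_iff]
        exact hu j
      rw [this]
      apply countable_iUnion
      intro n
      rw [← Cardinal.le_aleph0_iff_set_countable]
      have h2 := (hIic (u n)).trans_le hle
      rw [← Cardinal.succ_aleph0] at h2
      exact Order.lt_succ_iff.1 h2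
    rw [← Cardinal.le_aleph0_iff_set_countable, Cardinal.mk_univ] at hc
    exact absurd hunc (not_lt.2 hc)
  have h2 : ∀ a₀ : Set ι, ∃ a : Set ι, #a₀ < #ι → a₀ ⊆ a ∧ #a < #ι ∧ Good D Ψ a := by
    intro a₀
    by_cases ha : #a₀ < #ι
    · obtain ⟨a, h3, h4, h5⟩ := exists_good_above hX hD hΨ hsep (ν := max #a₀ ℵ₁)
        (le_max_right _ _) a₀ (le_max_left _ _)
      exact ⟨a, fun _ => ⟨h3, h4.trans_lt (max_lt ha h1), h5⟩⟩
    · exact ⟨∅, fun h => absurd h ha⟩
  choose H hH using h2
  let a : ℕ → Set ι := fun n => Nat.rec (H (Iic (u 0))) (fun n b => H (b ∪ Iic (u (n+1)))) n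
  have ha0 : a 0 = H (Iic (u 0)) := rfl
  have hasucc : ∀ n, a (n+1) = H (a n ∪ Iic (u (n+1))) := fun n => rfl
  have hprop : ∀ n, #(↥(a n)) < #ι ∧ Good D Ψ (a n) ∧ Iic (u n) ⊆ a n := by
    intro n
    induction n with
    | zero =>
      rw [ha0]
      have := hH (Iic (u 0)) (hIic _)
      exact ⟨this.2.1, this.2.2, this.1⟩
    | succ n ih =>
      rw [hasucc]
      have := hH (a n ∪ Iic (u (n+1)))
        ((Cardinal.mk_union_le _ _).trans_lt (Cardinal.add_lt_of_lt hunc.le ih.1 (hIic _)))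
      exact ⟨this.2.1, this.2.2, subset_union_right.trans this.1⟩
  have hmono : Monotone a := by
    apply monotone_nat_of_le_succ
    intro n
    rw [hasucc]
    exact subset_union_left.trans (hH _ ((Cardinal.mk_union_le _ _).trans_lt
      (Cardinal.add_lt_of_lt hunc.le (hprop n).1 (hIic _)))).1
  refine glue_filtration (D := D) (Ψ := Ψ) (I := ℕ) (a := a) (fun A x hx => hX.tight hx) hD hΨ hsep
    hmono ?_ (fun n => (hprop n).2.1) ?_ (fun n => hIH.pc_Xs hX (hprop n).1)
  · intro k
    obtain ⟨n, hn⟩ := hu k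
    exact ⟨n, (hprop n).2.2 hn⟩
  · rintro n ⟨j, hj⟩
    obtain ⟨m, rfl⟩ : ∃ m, n = m + 1 := ⟨n - 1, by omega⟩
    have : (⋃ j ∈ Iio (m+1), a j) = a m := by
      apply Subset.antisymm
      · apply iUnion₂_subset
        intro j hj
        exact hmono (Nat.lt_succ_iff.1 hj)
      · exact subset_biUnion_of_mem (u := a) (mem_Iio.2 (Nat.lt_succ_self m))
    rw [this]
    exact (hprop m).2.1

end Cases

/-- Countable density. -/
theorem pc_of_countable {X : Type} [TopologicalSpace X] {ι : Type}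
    [Countable ι] {D : ι → X} (hD : DenseRange D) (hX : Splittable X) : PC X := by
  rcases isEmpty_or_nonempty X with hX' | hX'
  · exact ⟨Unit, fun _ _ => 0, ⟨continuous_const, fun x => (isEmptyElim x)⟩,
      fun x => isEmptyElim x⟩
  have hsepb : TopologicalSpace.SeparableSpace X :=
    ⟨⟨range D, countable_range D, hD⟩⟩
  have hd := TopologicalSpace.denseRange_denseSeq X
  obtain ⟨Ψ, hΨ, hs⟩ := hX.exists_sep_family hd
  refine ⟨ℕ, fun x n => Ψ n x, ⟨continuous_pi hΨ, fun x => Set.to_countable _⟩, ?_⟩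
  intro x y hxy
  exact hs x y (fun i => congrFun hxy i)

theorem IH_all (l : Cardinal.{0}) : IH l := by
  induction l using WellFoundedLT.induction with
  | ind l ih =>
    intro Y _ _ _ J D' hJ hD' hY
    have hIH : IH #J := ih _ hJ
    rcases le_or_gt #J ℵ₀ with hcount | hunc
    · have : Countable J := Cardinal.mk_le_aleph0_iff.1 hcount
      exact pc_of_countable hD' hY
    · -- reindex by an initial ordinal
      have hmk : #((#J).ord.ToType) = #J := Cardinal.mk_ord_toType _
      obtain ⟨e⟩ : Nonempty ((#J).ord.ToType ≃ J) := Cardinal.eq.1 hmk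
      have hDe : DenseRange (D' ∘ e) := by
        rw [DenseRange, e.surjective.range_comp]
        exact hD'
      rw [← hmk] at hIH hunc
      have hinit : ∀ i : (#J).ord.ToType, #(Iio i) < #((#J).ord.ToType) := by
        intro i
        apply Cardinal.mk_Iio_lt i
        rw [hmk]
        exact (Ordinal.type_toType _).symm
      have hinf : Infinite ((#J).ord.ToType) := Cardinal.infinite_iff.2 hunc.le
      obtain ⟨Ψ, hΨ, hsep⟩ := hY.exists_sep_family hDe
      by_cases h1 : ∃ u : ℕ → (#J).ord.ToType, ∀ j, ∃ n, j ≤ u n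
      · obtain ⟨u, hu⟩ := h1
        exact case_countable_cof hIH hY hDe hΨ hsep hunc hinit u hu
      · by_cases h2 : ∃ K : Set (#J).ord.ToType, #K < #((#J).ord.ToType) ∧ ∀ i, ∃ k ∈ K, i ≤ k
        · obtain ⟨K, hK, hKcof⟩ := h2
          refine case_singular hIH hY hDe hΨ hsep hunc hinit ?_ K hK hKcof
          intro S hS
          by_contra hcon
          push Not at hcon
          apply h1
          have hne : S.Nonempty := by
            obtain ⟨i⟩ : Nonempty ((#J).ord.ToType) := inferInstance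
            obtain ⟨s, hs, _⟩ := hcon i
            exact ⟨s, hs⟩
          obtain ⟨u, hu⟩ := hS.exists_eq_range hne
          refine ⟨u, fun j => ?_⟩
          obtain ⟨s, hs, hjs⟩ := hcon j
          rw [hu] at hs
          obtain ⟨n, rfl⟩ := hs
          exact ⟨n, hjs⟩
        · refine case_regular hIH hY hDe hΨ hsep hunc hinit ?_
          intro K hK
          by_contra hcon
          push Not at hcon
          exact h2 ⟨K, hK, hcon⟩

/-- **Main theorem, first half**: every compact space that is splittable over the class of Corson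
compacta is itself Corson compact. -/
theorem Splittable.pc {X : Type} [TopologicalSpace X] [CompactSpace X] [T2Space X]
    (hX : Splittable X) : PC X :=
  IH_all (Order.succ #X) X X id (Order.lt_succ _) denseRange_id hX

end Pool.Agent.Helper27.Corson
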