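import Mathlib
import Pool.Agent.Helper27.Corson7

set_option autoImplicit false

open Set Topology Cardinal

namespace Pool.Agent.Helper27.Corson

/-- Metrizable case: continuous images. -/
theorem image_pc_countable {X Z : Type} [TopologicalSpace X] [CompactSpace X] [T2Space X]
    [TopologicalSpace Z] [T2Space Z] {T : Type} [Countable T] {e : X → T → ℝ}
    (he : SigmaMap e) (hinj : Function.Injective e) {g : X → Z} (hg : Continuous g)
    (hsurj : Function.Surjective g) : PC Z := by
  have hemb : IsClosedEmbedding e := he.1.isClosedEmbedding hinj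
  have : SecondCountableTopology X := hemb.isEmbedding.secondCountableTopology
  have hZc : CompactSpace Z := by
    rw [← isCompact_univ_iff, ← hsurj.range_eq]
    exact isCompact_range hg
  let R : Set C(X, ℝ) := {u | ∃ φ : C(Z, ℝ), u = φ.comp ⟨g, hg⟩}
  have hsep : TopologicalSpace.IsSeparable R := TopologicalSpace.IsSeparable.of_separableSpace _
  obtain ⟨c, hc, hcc, hcd⟩ := hsep.exists_countable_dense_subset
  have h1 : ∀ u : c, ∃ φ : C(Z, ℝ), (u : C(X, ℝ)) = φ.comp ⟨g, hg⟩ := fun u => hc u.2
  choose φ hφ using h1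
  have : Countable c := hcc
  refine ⟨c, fun z u => φ u z, ⟨continuous_pi (fun u => (φ u).continuous), fun z => Set.to_countable _⟩, ?_⟩
  intro z w hzw
  by_contra hne
  obtain ⟨ψ, hψz, hψw, -⟩ := exists_continuous_zero_one_of_isClosed (isClosed_singleton (x := z))
    (isClosed_singleton (x := w)) (by simpa using hne)
  have hψz' : ψ z = 0 := hψz rfl
  have hψw' : ψ w = 1 := hψw rfl
  have hmem : ψ.comp ⟨g, hg⟩ ∈ closure c := hcd ⟨ψ, rfl⟩
  obtain ⟨u, hu, hdist⟩ := Metric.mem_closure_iff.1 hmem (1/3) (by norm_num)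
  have h2 : ∀ x, |ψ (g x) - φ ⟨u, hu⟩ (g x)| < 1/3 := by
    intro x
    have h3 := lt_of_le_of_lt (ContinuousMap.dist_apply_le_dist x) hdist
    rw [Real.dist_eq] at h3
    have h4 : u = (φ ⟨u, hu⟩).comp ⟨g, hg⟩ := hφ ⟨u, hu⟩
    rw [h4] at h3
    exact h3
  obtain ⟨x, rfl⟩ := hsurj z
  obtain ⟨y, rfl⟩ := hsurj w
  have h5 := h2 x
  have h6 := h2 y
  have h7 : φ ⟨u, hu⟩ (g x) = φ ⟨u, hu⟩ (g y) := congrFun hzw ⟨u, hu⟩
  rw [hψz', h7] at h5
  rw [hψw'] at h6
  rw [abs_lt] at h5 h6
  linarith [h5.1, h5.2, h6.1, h6.2]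

section Image

variable {X Z : Type} [TopologicalSpace X] [CompactSpace X] [T2Space X]
    [TopologicalSpace Z] [T2Space Z] {T : Type} {e : X → T → ℝ} {g : X → Z}

/-- `b` is admissible: restricting supports to `b` is compatible with `g`. -/
def Adm (e : X → T → ℝ) (g : X → Z) (b : Set T) : Prop :=
  ∀ x y, g x = g y → ∃ x' y', e x' = b.indicator (e x) ∧ e y' = b.indicator (e y) ∧ g x' = g y'

omit [T2Space X] in
theorem exists_adm_op (he : SigmaMap e) (hg : Continuous g) :
    ∃ G : Finset T → Set T, (∀ s, (G s).Countable) ∧ ∀ b, ClosedUnder G b → Adm e g b := by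
  classical
  let R : Set (X × X) := {p | g p.1 = g p.2}
  have hR : IsClosed R := isClosed_eq (hg.comp continuous_fst) (hg.comp continuous_snd)
  let q : X × X → (T ⊕ T) → ℝ := fun p => Sum.elim (e p.1) (e p.2)
  have hq : Continuous q := by
    apply continuous_pi
    rintro (t | t)
    · exact (continuous_apply t).comp (he.1.comp continuous_fst)
    · exact (continuous_apply t).comp (he.1.comp continuous_snd)
  have h1 : ∀ s : Finset T, ∃ S : Set R, S.Countable ∧ ∀ k : R, ∀ ε > 0, ∃ z ∈ S,
      ∀ t ∈ s.disjSum s, |q z t - q k t| < ε :=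
    fun s => exists_countable_piece (fun k : R => q k) (s.disjSum s)
  choose P hPc hP using h1
  refine ⟨fun s => ⋃ z ∈ P s, (Function.support (e (z : X × X).1) ∪ Function.support (e (z : X × X).2)),
    ?_, ?_⟩
  · intro s
    exact (hPc s).biUnion (fun z _ => (he.2 _).union (he.2 _))
  · intro b hb x y hxy
    let K : Set (X × X) := R ∩ {p | ∀ t ∉ b, e p.1 t = 0 ∧ e p.2 t = 0}
    have hK : IsCompact K := by
      apply IsClosed.isCompact
      apply hR.inter
      have : {p : X × X | ∀ t ∉ b, e p.1 t = 0 ∧ e p.2 t = 0} =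
          ⋂ t ∈ bᶜ, ({p : X × X | e p.1 t = 0} ∩ {p : X × X | e p.2 t = 0}) := by
        ext p; simp
      rw [this]
      apply isClosed_biInter
      intro t _
      exact (isClosed_eq ((continuous_apply t).comp (he.1.comp continuous_fst)) continuous_const).inter
        (isClosed_eq ((continuous_apply t).comp (he.1.comp continuous_snd)) continuous_const)
    let v : (T ⊕ T) → ℝ := Sum.elim (b.indicator (e x)) (b.indicator (e y))
    have hv : v ∈ closure (q '' K) := by
      rw [mem_closure_iff_nhds]
      intro U hU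
      rw [nhds_pi, Filter.mem_pi'] at hU
      obtain ⟨s', V, hV, hVU⟩ := hU
      have h2 : ∀ t, ∃ ε > 0, Metric.ball (v t) ε ⊆ V t := fun t => Metric.mem_nhds_iff.1 (hV t)
      choose ε hε hεV using h2
      obtain ⟨δ, hδ, hδε⟩ : ∃ δ > 0, ∀ t ∈ s', δ ≤ ε t := by
        rcases s'.eq_empty_or_nonempty with h | h
        · exact ⟨1, one_pos, by simp [h]⟩
        · exact ⟨s'.inf' h ε, by simp [hε], fun t ht => Finset.inf'_le _ ht⟩
      let s : Finset T := (s'.image (Sum.elim id id)).filter (· ∈ b)
      have hsb : (s : Set T) ⊆ b := by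
        intro t ht
        exact (Finset.mem_filter.1 ht).2
      obtain ⟨z, hz, hzk⟩ := hP s ⟨(x, y), hxy⟩ δ hδ
      have hzG : ∀ t ∉ b, e (z : X × X).1 t = 0 ∧ e (z : X × X).2 t = 0 := by
        intro t ht
        have h3 := hb s hsb
        constructor
        · by_contra hne
          apply ht
          apply h3
          simp only [mem_iUnion]
          exact ⟨z, hz, Or.inl hne⟩
        · by_contra hne
          apply ht
          apply h3
          simp only [mem_iUnion]
          exact ⟨z, hz, Or.inr hne⟩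
      refine ⟨q z, hVU ?_, (z : X × X), ⟨z.2, hzG⟩, rfl⟩
      rintro (t | t) ht
      · apply hεV
        rw [Metric.mem_ball, Real.dist_eq]
        refine lt_of_lt_of_le ?_ (hδε _ ht)
        by_cases htb : t ∈ b
        · have hts : t ∈ s := Finset.mem_filter.2 ⟨Finset.mem_image.2 ⟨_, ht, rfl⟩, htb⟩
          have h4 := hzk (Sum.inl t) (Finset.inl_mem_disjSum.2 hts)
          simp only [q, v, Sum.elim_inl, indicator_of_mem htb] at h4 ⊢
          exact h4
        · simp only [q, v, Sum.elim_inl, indicator_of_notMem htb, (hzG t htb).1, sub_self, abs_zero]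
          exact hδ
      · apply hεV
        rw [Metric.mem_ball, Real.dist_eq]
        refine lt_of_lt_of_le ?_ (hδε _ ht)
        by_cases htb : t ∈ b
        · have hts : t ∈ s := Finset.mem_filter.2 ⟨Finset.mem_image.2 ⟨_, ht, rfl⟩, htb⟩
          have h4 := hzk (Sum.inr t) (Finset.inr_mem_disjSum.2 hts)
          simp only [q, v, Sum.elim_inr, indicator_of_mem htb] at h4 ⊢
          exact h4
        · simp only [q, v, Sum.elim_inr, indicator_of_notMem htb, (hzG t htb).2, sub_self, abs_zero]
          exact hδ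
    rw [(hK.image hq).isClosed.closure_eq] at hv
    obtain ⟨⟨x', y'⟩, ⟨hR', _⟩, hqv⟩ := hv
    refine ⟨x', y', ?_, ?_, hR'⟩
    · funext t
      exact congrFun hqv (Sum.inl t)
    · funext t
      exact congrFun hqv (Sum.inr t)

open Classical in
/-- The retraction on `X`. -/
noncomputable def rX (e : X → T → ℝ) (b : Set T) (x : X) : X :=
  if h : ∃ x', e x' = b.indicator (e x) then h.choose else x

omit [TopologicalSpace X] [CompactSpace X] [T2Space X] [TopologicalSpace Z] [T2Space Z] in
theorem Adm.rX_spec {b : Set T} (hb : Adm e g b) (x : X) : e (rX e b x) = b.indicator (e x) := by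
  have h : ∃ x', e x' = b.indicator (e x) := by
    obtain ⟨x', _, hx', _, _⟩ := hb x x rfl
    exact ⟨x', hx'⟩
  rw [rX, dif_pos h]
  exact h.choose_spec

omit [TopologicalSpace X] [CompactSpace X] [T2Space X] [TopologicalSpace Z] [T2Space Z] in
theorem Adm.g_rX {b : Set T} (hb : Adm e g b) (hinj : Function.Injective e) {x y : X}
    (hxy : g x = g y) : g (rX e b x) = g (rX e b y) := by
  obtain ⟨x', y', hx', hy', hg'⟩ := hb x y hxy
  have h1 : rX e b x = x' := hinj (by rw [hb.rX_spec, hx'])
  have h2 : rX e b y = y' := hinj (by rw [hb.rX_spec, hy'])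
  rw [h1, h2, hg']

/-- The retraction on `Z`. -/
noncomputable def rZ (e : X → T → ℝ) (g : X → Z) (hsurj : Function.Surjective g) (b : Set T)
    (z : Z) : Z := g (rX e b (Function.surjInv hsurj z))

omit [TopologicalSpace X] [CompactSpace X] [T2Space X] [TopologicalSpace Z] [T2Space Z] in
theorem Adm.rZ_g {b : Set T} (hb : Adm e g b) (hinj : Function.Injective e)
    (hsurj : Function.Surjective g) (x : X) : rZ e g hsurj b (g x) = g (rX e b x) :=
  hb.g_rX hinj (Function.surjInv_eq hsurj (g x))

omit [T2Space X] [TopologicalSpace Z] [T2Space Z] in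
theorem Adm.continuous_rX {b : Set T} (hb : Adm e g b) (he : SigmaMap e)
    (hinj : Function.Injective e) : Continuous (rX e b) := by
  have hemb : IsClosedEmbedding e := he.1.isClosedEmbedding hinj
  rw [hemb.isEmbedding.continuous_iff]
  have : e ∘ rX e b = fun x => b.indicator (e x) := by
    funext x
    exact hb.rX_spec x
  rw [this]
  apply continuous_pi
  intro t
  by_cases ht : t ∈ b
  · simp only [indicator_of_mem ht]
    exact (continuous_apply t).comp he.1
  · simp only [indicator_of_notMem ht]
    exact continuous_const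

omit [T2Space X] in
theorem Adm.continuous_rZ {b : Set T} (hb : Adm e g b) (he : SigmaMap e)
    (hinj : Function.Injective e) (hg : Continuous g) (hsurj : Function.Surjective g) :
    Continuous (rZ e g hsurj b) := by
  have hquot : IsQuotientMap g := (hg.isClosedMap).isQuotientMap hg hsurj
  rw [hquot.continuous_iff]
  have : rZ e g hsurj b ∘ g = g ∘ rX e b := by
    funext x
    exact hb.rZ_g hinj hsurj x
  rw [this]
  exact hg.comp (hb.continuous_rX he hinj)

omit [T2Space X] in
/-- Limits of retractions along a chain. -/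
theorem g_eq_of_chain (he : SigmaMap e) (hinj : Function.Injective e) (hg : Continuous g)
    {I : Type} [LinearOrder I] [Nonempty I] {b : I → Set T} (hmono : Monotone b)
    (hb : ∀ i, Adm e g (b i)) {x y x' y' : X}
    (hx' : e x' = (⋃ i, b i).indicator (e x)) (hy' : e y' = (⋃ i, b i).indicator (e y))
    (h : ∀ i, g (rX e (b i) x) = g (rX e (b i) y)) : g x' = g y' := by
  have hemb : IsClosedEmbedding e := he.1.isClosedEmbedding hinj
  have key : ∀ x x' : X, e x' = (⋃ i, b i).indicator (e x) →
      Filter.Tendsto (fun i => rX e (b i) x) Filter.atTop (𝓝 x') := by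
    intro x x' hx'
    rw [hemb.isEmbedding.tendsto_nhds_iff, tendsto_pi_nhds]
    intro t
    apply tendsto_const_nhds.congr'
    by_cases ht : ∃ i, t ∈ b i
    · obtain ⟨i, hi⟩ := ht
      filter_upwards [Filter.eventually_ge_atTop i] with j hj
      rw [hx', Function.comp, (hb j).rX_spec, indicator_of_mem (mem_iUnion.2 ⟨i, hi⟩),
        indicator_of_mem (hmono hj hi)]
    · push Not at ht
      filter_upwards with j
      rw [hx', Function.comp, (hb j).rX_spec, indicator_of_notMem (by simpa using ht),
        indicator_of_notMem (ht j)]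
  have h1 := (hg.tendsto x').comp (key x x' hx')
  have h2 := (hg.tendsto y').comp (key y y' hy')
  have h3 : (g ∘ fun i => rX e (b i) x) = (g ∘ fun i => rX e (b i) y) := by
    funext i
    exact h i
  rw [h3] at h1
  exact tendsto_nhds_unique h1 h2

end Image

end Pool.Agent.Helper27.Corson
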