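import Mathlib
import Pool.Agent.Helper27.Corson8

set_option autoImplicit false

open Set Topology Cardinal

namespace Pool.Agent.Helper27.Corson

/-- The induction hypothesis for the image theorem. -/
def IHim (l : Cardinal.{0}) : Prop :=
  ∀ (X Z : Type) [TopologicalSpace X] [CompactSpace X] [T2Space X]
    [TopologicalSpace Z] [T2Space Z] (T : Type) (e : X → T → ℝ) (g : X → Z),
    #T < l → SigmaMap e → Function.Injective e → Continuous g → Function.Surjective g → PC Z

theorem image_step {X Z : Type} [TopologicalSpace X] [CompactSpace X] [T2Space X]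
    [TopologicalSpace Z] [T2Space Z] {T : Type} {e : X → T → ℝ} {g : X → Z}
    [LinearOrder T] [WellFoundedLT T]
    (hIH : IHim #T) (he : SigmaMap e) (hinj : Function.Injective e) (hg : Continuous g)
    (hsurj : Function.Surjective g) (hunc : ℵ₀ < #T) (hinit : ∀ i : T, #(Iio i) < #T) : PC Z := by
  classical
  obtain ⟨G, hGc, hG⟩ := exists_adm_op he hg
  let b : T → Set T := fun i => hull G (Iic i)
  have hmono : Monotone b := fun i j hij => hull_mono (Iic_subset_Iic.2 hij)
  have hadm : ∀ i, Adm e g (b i) := fun i => hG _ (closed_hull _)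
  have hadm' : ∀ i, (∃ j, j < i) → Adm e g (⋃ j ∈ Iio i, b j) := fun i hi =>
    hG _ (closed_iUnion_Iio hmono (fun j => closed_hull _) hi)
  have hcard : ∀ i, #(b i) < #T := by
    intro i
    have h2 : #(b i) ≤ max #(Iic i) ℵ₀ :=
      mk_hull_le (le_max_right _ _)
        (fun s => ((Cardinal.le_aleph0_iff_set_countable).2 (hGc s)).trans (le_max_right _ _))
        (le_max_left _ _)
    exact h2.trans_lt (max_lt (mk_Iic_lt hunc hinit i) hunc)
  have hsub : ∀ i, (⋃ l ∈ Iio i, b l) ⊆ b i := fun i => iUnion₂_subset (fun l hl => hmono (le_of_lt hl))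
  -- the pieces
  let XX : T → Set X := fun i => {x | ∀ t ∉ b i, e x t = 0}
  have hXXc : ∀ i, IsClosed (XX i) := by
    intro i
    have : XX i = ⋂ t ∈ (b i)ᶜ, {x | e x t = 0} := by ext x; simp [XX]
    rw [this]
    apply isClosed_biInter
    intro t _
    exact isClosed_eq ((continuous_apply t).comp he.1) continuous_const
  let ZZ : T → Set Z := fun i => g '' XX i
  have hPC : ∀ i, PC (ZZ i) := by
    intro i
    have : CompactSpace (XX i) := isCompact_iff_compactSpace.1 (hXXc i).isCompact
    refine hIH (XX i) (ZZ i) (b i) (fun x t => e x t) (fun x => ⟨g x, x, x.2, rfl⟩) (hcard i)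
      ⟨?_, ?_⟩ ?_ ?_ ?_
    · apply continuous_pi
      intro t
      exact (continuous_apply (t : T)).comp (he.1.comp continuous_subtype_val)
    · intro x
      have h3 := he.2 (x : X)
      exact h3.preimage Subtype.val_injective
    · intro x y hxy
      apply Subtype.ext
      apply hinj
      funext t
      by_cases ht : t ∈ b i
      · exact congrFun hxy ⟨t, ht⟩
      · rw [x.2 t ht, y.2 t ht]
    · exact (hg.comp continuous_subtype_val).subtype_mk _
    · rintro ⟨_, x, hx, rfl⟩
      exact ⟨⟨x, hx⟩, rfl⟩
  choose K ε hε hεinj using hPC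
  -- membership
  have hrX_mem : ∀ i x, rX e (b i) x ∈ XX i := by
    intro i x t ht
    rw [(hadm i).rX_spec, indicator_of_notMem ht]
  have hrX_mem' : ∀ i (_ : ∃ j, j < i) x, rX e (⋃ l ∈ Iio i, b l) x ∈ XX i := by
    intro i hi x t ht
    rw [(hadm' i hi).rX_spec, indicator_of_notMem (fun h => ht (hsub i h))]
  have hrZ_mem : ∀ i z, rZ e g hsurj (b i) z ∈ ZZ i := fun i z => ⟨_, hrX_mem i _, rfl⟩
  have hrZ_mem' : ∀ i (_ : ∃ j, j < i) z, rZ e g hsurj (⋃ l ∈ Iio i, b l) z ∈ ZZ i :=
    fun i hi z => ⟨_, hrX_mem' i hi _, rfl⟩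
  let u : (i : T) → Z → K i → ℝ := fun i z => ε i ⟨rZ e g hsurj (b i) z, hrZ_mem i z⟩
  let um : (i : T) → Z → K i → ℝ := fun i z => if h : ∃ j, j < i then
    ε i ⟨rZ e g hsurj (⋃ l ∈ Iio i, b l) z, hrZ_mem' i h z⟩ else 0
  have hu_iff : ∀ i z w, u i z = u i w ↔ rZ e g hsurj (b i) z = rZ e g hsurj (b i) w := by
    intro i z w
    constructor
    · intro h
      exact congrArg Subtype.val (hεinj i h)
    · intro h
      simp only [u]
      congr 1
      exact Subtype.ext h
  have hcover : ∀ t, t ∈ b t := fun t => subset_hull _ (mem_Iic.2 le_rfl)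
  refine glue_abstract u um ?_ ?_ ?_ ?_ ?_ ?_ ?_
  · intro i
    exact (hε i).1.comp (((hadm i).continuous_rZ he hinj hg hsurj).subtype_mk _)
  · intro i
    by_cases h : ∃ j, j < i
    · simp only [um, dif_pos h]
      exact (hε i).1.comp (((hadm' i h).continuous_rZ he hinj hg hsurj).subtype_mk _)
    · simp only [um, dif_neg h]
      exact continuous_const
  · intro i z
    exact (hε i).2 _
  · intro i z
    by_cases h : ∃ j, j < i
    · simp only [um, dif_pos h]
      exact (hε i).2 _
    · simp only [um, dif_neg h]
      simp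
  · intro i z w hzw
    by_cases h : ∃ j, j < i
    · simp only [um, dif_pos h]
      congr 1
      apply Subtype.ext
      obtain ⟨x, rfl⟩ := hsurj z
      obtain ⟨y, rfl⟩ := hsurj w
      simp only
      rw [(hadm' i h).rZ_g hinj, (hadm' i h).rZ_g hinj]
      have hne : Nonempty (Iio i) := by
        obtain ⟨j, hj⟩ := h
        exact ⟨⟨j, hj⟩⟩
      refine g_eq_of_chain he hinj hg (I := Iio i) (b := fun j => b j)
        (fun j k hjk => hmono hjk) (fun j => hadm j) (x := x) (y := y) ?_ ?_ ?_
      · rw [(hadm' i h).rX_spec, biUnion_eq_iUnion]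
      · rw [(hadm' i h).rX_spec, biUnion_eq_iUnion]
      · intro j
        have h4 := (hu_iff j _ _).1 (hzw j j.2)
        rwa [(hadm j).rZ_g hinj, (hadm j).rZ_g hinj] at h4
    · simp only [um, dif_neg h]
  · intro z
    obtain ⟨x, rfl⟩ := hsurj z
    refine Countable.mono (s₂ := {i | ¬ ∃ j, j < i} ∪
      ⋃ t ∈ Function.support (e x), {i | t ∈ b i ∧ t ∉ ⋃ l ∈ Iio i, b l}) ?_ ?_
    · intro i hi
      by_cases h : ∃ j, j < i
      · right
        by_contra hcon
        simp only [mem_iUnion, not_exists] at hcon
        apply hi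
        simp only [u, um, dif_pos h]
        congr 1
        apply Subtype.ext
        simp only
        rw [(hadm i).rZ_g hinj, (hadm' i h).rZ_g hinj]
        congr 1
        apply hinj
        rw [(hadm i).rX_spec, (hadm' i h).rX_spec]
        funext t
        by_cases ht : e x t = 0
        · by_cases h1 : t ∈ b i <;> by_cases h2 : t ∈ (⋃ l ∈ Iio i, b l) <;>
            simp only [indicator_of_mem, indicator_of_notMem, h1, h2, ht, not_false_eq_true]
        · have h5 := hcon t ht
          by_cases h2 : t ∈ (⋃ l ∈ Iio i, b l)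
          · rw [indicator_of_mem h2, indicator_of_mem (hsub i h2)]
          · have h1 : t ∉ b i := fun h1 => h5 ⟨h1, by simpa using h2⟩
            rw [indicator_of_notMem h2, indicator_of_notMem h1]
      · left
        exact h
    · apply Countable.union
      · apply Set.Subsingleton.countable
        intro i hi j hj
        by_contra hne
        rcases lt_or_gt_of_ne hne with h | h
        · exact hj ⟨i, h⟩
        · exact hi ⟨j, h⟩
      · refine (he.2 x).biUnion (fun t _ => Set.Subsingleton.countable ?_)
        rintro i ⟨hi1, hi2⟩ j ⟨hj1, hj2⟩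
        by_contra hne
        rcases lt_or_gt_of_ne hne with h | h
        · exact hj2 (mem_biUnion (mem_Iio.2 h) hi1)
        · exact hi2 (mem_biUnion (mem_Iio.2 h) hj1)
  · intro z w hzw
    obtain ⟨x, rfl⟩ := hsurj z
    obtain ⟨y, rfl⟩ := hsurj w
    have hT : Nonempty T := by
      have : Infinite T := Cardinal.infinite_iff.2 hunc.le
      infer_instance
    have hun : (⋃ i, b i) = Set.univ := by
      ext t
      simp only [mem_iUnion, mem_univ, iff_true]
      exact ⟨t, hcover t⟩
    refine g_eq_of_chain he hinj hg (I := T) (b := b) hmono hadm (x := x) (y := y) ?_ ?_ ?_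
    · rw [hun, indicator_univ]
    · rw [hun, indicator_univ]
    · intro j
      have h4 := (hu_iff j _ _).1 (hzw j)
      rwa [(hadm j).rZ_g hinj, (hadm j).rZ_g hinj] at h4

theorem IHim_all (l : Cardinal.{0}) : IHim l := by
  induction l using WellFoundedLT.induction with
  | ind l ih =>
    intro X Z _ _ _ _ _ T e g hT he hinj hg hsurj
    have hIH : IHim #T := ih _ hT
    rcases le_or_gt #T ℵ₀ with hcount | hunc
    · have : Countable T := Cardinal.mk_le_aleph0_iff.1 hcount
      exact image_pc_countable he hinj hg hsurj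
    · have hmk : #((#T).ord.ToType) = #T := Cardinal.mk_ord_toType _
      obtain ⟨q⟩ : Nonempty ((#T).ord.ToType ≃ T) := Cardinal.eq.1 hmk
      rw [← hmk] at hIH hunc
      have hinit : ∀ i : (#T).ord.ToType, #(Iio i) < #((#T).ord.ToType) := by
        intro i
        apply Cardinal.mk_Iio_lt i
        rw [hmk]
        exact (Ordinal.type_toType _).symm
      have he' : SigmaMap (fun x t => e x (q t)) := by
        refine ⟨continuous_pi (fun t => (continuous_apply (q t)).comp he.1), ?_⟩
        intro x
        exact (he.2 x).preimage q.injective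
      have hinj' : Function.Injective (fun x t => e x (q t)) := by
        intro x y hxy
        apply hinj
        funext t
        have := congrFun hxy (q.symm t)
        simpa using this
      exact image_step hIH he' hinj' hg hsurj hunc hinit

/-- Continuous images of Corson compacta are Corson compact (Michael and Rudin, Gulko). -/
theorem PC.image {X Z : Type} [TopologicalSpace X] [CompactSpace X] [T2Space X]
    [TopologicalSpace Z] [T2Space Z] (hX : PC X) {g : X → Z} (hg : Continuous g)
    (hsurj : Function.Surjective g) : PC Z := by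
  obtain ⟨T, e, he, hinj⟩ := hX
  exact IHim_all (Order.succ #T) X Z T e g (Order.lt_succ _) he hinj hg hsurj

end Pool.Agent.Helper27.Corson
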